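import Pool.Agent.Lib.MP_426cf1_co.Mod

/-!
# JOB Sys: a model of `T s m` from hubs and leaves

Choose an injection `λ : Fin s ⊕ Fin m → Λ` (`s + m ≤ |Λ|`). Branch sets: `f (inl i) = R i ∪ {λ (inl i)}`, `f (inr j) = {λ (inr j)}`. They are disjoint and connected (`λ (inl i)` is adjacent to a vertex of `R i`; `R i` is connected and not empty;
`SimpleGraph.induce_union_connected` with the pair, or `connected_induce_union`/`induce_connected_adj_union`; singletons are connected). Edges: for `i ≠ i'`: `λ (inl i)` has a neighbour in `R i'`; for `i`, `j`: `λ (inr j)` has a neighbour in `R i`.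
-/

set_option autoImplicit false

namespace Pool.Agent.Lib.MP_426cf1_co

variable {V : Type*} [DecidableEq V]

theorem sys {G : SimpleGraph V} {L : Finset V} {s m : ℕ} (R : Fin s → Finset V) (Λ : Finset V)
    (hR : ∀ i, R i ⊆ L) (hΛ : Λ ⊆ L) (hconn : ∀ i, (G.induce (R i : Set V)).Connected)
    (hdisj : ∀ i j, i ≠ j → Disjoint (R i) (R j)) (hdisj' : ∀ i, Disjoint (R i) Λ)
    (hadj : ∀ w ∈ Λ, ∀ i, ∃ y ∈ R i, G.Adj w y) (hm : s + m ≤ Λ.card) :
    Model (T s m) G (L : Set V) := by
  obtain ⟨e⟩ : Nonempty (Fin s ⊕ Fin m ↪ Λ) := by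
    refine Function.Embedding.nonempty_of_card_le ?_
    rw [Fintype.card_sum, Fintype.card_fin, Fintype.card_fin, Fintype.card_coe]
    exact hm
  have hinj : ∀ a b, a ≠ b → (e a : V) ≠ e b := fun a b hab h => hab (e.injective (Subtype.ext h))
  have hRe : ∀ i a, (e a : V) ∉ R i := fun i a h =>
    Finset.disjoint_left.1 (hdisj' i) h (e a).2
  refine ⟨fun a => Sum.elim (fun i => (R i : Set V) ∪ {(e (Sum.inl i) : V)})
    (fun j => {(e (Sum.inr j) : V)}) a, ?_, ?_, ?_, ?_⟩
  · rintro (i | j)
    · intro v hv
      rcases hv with hv | hv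
      · exact hR i hv
      · rw [Set.mem_singleton_iff] at hv
        rw [hv]
        exact hΛ (e (Sum.inl i)).2
    · intro v hv
      change v = (e (Sum.inr j) : V) at hv
      rw [hv]
      exact hΛ (e (Sum.inr j)).2
  · intro a b hab
    rw [Set.disjoint_left]
    intro v hva hvb
    rcases a with i | j <;> rcases b with i' | j'
    · rcases hva with h1 | h1 <;> rcases hvb with h2 | h2
      · have hii : i ≠ i' := fun h => hab (by rw [h])
        exact Finset.disjoint_left.1 (hdisj i i' hii) h1 h2
      · rw [Set.mem_singleton_iff] at h2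
        rw [h2] at h1
        exact hRe _ _ h1
      · rw [Set.mem_singleton_iff] at h1
        rw [h1] at h2
        exact hRe _ _ h2
      · rw [Set.mem_singleton_iff] at h1 h2
        exact hinj _ _ hab (h1.symm.trans h2)
    · change v = (e (Sum.inr j') : V) at hvb
      rcases hva with h1 | h1
      · rw [hvb] at h1
        exact hRe _ _ h1
      · rw [Set.mem_singleton_iff] at h1
        exact hinj _ _ hab (h1.symm.trans hvb)
    · change v = (e (Sum.inr j) : V) at hva
      rcases hvb with h1 | h1
      · rw [hva] at h1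
        exact hRe _ _ h1
      · rw [Set.mem_singleton_iff] at h1
        exact hinj _ _ hab (hva.symm.trans h1)
    · change v = (e (Sum.inr j) : V) at hva
      change v = (e (Sum.inr j') : V) at hvb
      exact hinj _ _ hab (hva.symm.trans hvb)
  · have hone : ∀ z : V, (G.induce ({z} : Set V)).Connected := by
      intro z
      have : Subsingleton ({z} : Set V) := inferInstance
      have : Nonempty ({z} : Set V) := ⟨⟨z, rfl⟩⟩
      exact SimpleGraph.Connected.mk (fun u v => by rw [Subsingleton.elim u v])
    rintro (i | j)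
    · obtain ⟨y, hy, hyw⟩ := hadj _ (e (Sum.inl i)).2 i
      exact SimpleGraph.connected_induce_union (hconn i).preconnected (hone _).preconnected hy
        (Set.mem_singleton _) hyw.symm
    · exact hone _
  · intro a b hab
    rcases a with i | j <;> rcases b with i' | j'
    · have hii : i ≠ i' := fun h => hab.1 (by rw [h])
      obtain ⟨y, hy, hyw⟩ := hadj _ (e (Sum.inl i)).2 i'
      exact ⟨e (Sum.inl i), Or.inr rfl, y, Or.inl hy, hyw⟩
    · obtain ⟨y, hy, hyw⟩ := hadj _ (e (Sum.inr j')).2 i
      exact ⟨y, Or.inl hy, e (Sum.inr j'), rfl, hyw.symm⟩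
    · obtain ⟨y, hy, hyw⟩ := hadj _ (e (Sum.inr j)).2 i'
      exact ⟨e (Sum.inr j), rfl, y, Or.inl hy, hyw⟩
    · rcases hab.2 with h | h
      · simp at h
      · simp at h

end Pool.Agent.Lib.MP_426cf1_co
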