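import Pool.Agent.Lib.MP_426cf1_co.Hub
import Pool.Agent.Lib.MP_426cf1_co.Sys

/-!
# JOB CaseA: hubs in one set

`one_set`: `F, M ⊆ L`, `F` robust, degrees `≥ β` from `F` and from `M` into `F`, `|F| ≤ 16 β`, and `M` has at least `100 (s + m + s * kp l) / 99` elements. Then `T s m` has a model: choose distinct roots `x i ∈ F` (`|F| ≥ β ≥ s`) and let `R` be given by `hubs` (`U₀ = ∅`). `Λ = M \ ((⋃ i, R i) ∪ (⋃ i, ud G (R i) M))`:
`100 s |ud G (R i) M| ≤ 2 ^ l |ud G (R i) M| ≤ |M|`, so `100 ∑ |ud| ≤ |M|` (sum over `s` indices; `s ≥ 1`), `|⋃ R i| ≤ s * kp l`, so `100 |Λ| ≥ 99 |M| - 100 s * kp l ≥ 100 (s + m)`. Apply `sys`.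

`case_small`: `G, L` good and `|L| ≤ 12 a`: `F = M = L`, `β = a` (`deg`), `|L| ≥ 2 a - 2 b`, `2 m ≤ 3 a`: `99 (2 a - 2 b) ≥ 198 a - 198 b` and `100 (s + m + s * kp l) ≤ 100 (b + 3 a / 2) = 150 a + 100 b` (`s + s * kp l ≤ b`).
-/

set_option autoImplicit false

namespace Pool.Agent.Lib.MP_426cf1_co

variable {V : Type*} [DecidableEq V]

open Classical in
theorem mem_ud {G : SimpleGraph V} {R M : Finset V} {w : V} :
    w ∈ ud G R M ↔ w ∈ M ∧ ∀ y ∈ R, ¬ G.Adj w y := by
  unfold ud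
  exact Finset.mem_filter

/-- the total number of undominated vertices -/
theorem sum_ud {G : SimpleGraph V} {M : Finset V} {s l : ℕ} (hl : 100 * s ≤ 2 ^ l)
    (R : Fin s → Finset V) (h : ∀ i, 2 ^ l * (ud G (R i) M).card ≤ M.card) :
    100 * (Finset.univ.biUnion fun i => ud G (R i) M).card ≤ M.card := by
  have h1 : (Finset.univ.biUnion fun i => ud G (R i) M).card ≤ ∑ i : Fin s, (ud G (R i) M).card :=
    Finset.card_biUnion_le
  rcases Nat.eq_zero_or_pos s with rfl | hs
  · simp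
  have h2 : s * (100 * ∑ i : Fin s, (ud G (R i) M).card) ≤ s * M.card := by
    calc s * (100 * ∑ i : Fin s, (ud G (R i) M).card)
        = ∑ i : Fin s, (100 * s) * (ud G (R i) M).card := by
          rw [← Finset.mul_sum]
          ring
      _ ≤ ∑ _i : Fin s, M.card :=
          Finset.sum_le_sum fun i _ => (Nat.mul_le_mul_right _ hl).trans (h i)
      _ = s * M.card := by rw [Finset.sum_const, Finset.card_univ, Fintype.card_fin, smul_eq_mul]
  have h3 := Nat.le_of_mul_le_mul_left h2 hs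
  omega

theorem one_set {G : SimpleGraph V} {L F M : Finset V} {s l b β m : ℕ} (hs : 1 ≤ s)
    (hl : 100 * s ≤ 2 ^ l) (hb : s * (2 * kp l + 1) ≤ b) (hβ : 2 * b ≤ β) (hFL : F ⊆ L)
    (hML : M ⊆ L) (hrob : Rob b G F) (hne : F.Nonempty) (hF : ∀ v ∈ F, β ≤ dg G F v)
    (hM : ∀ w ∈ M, β ≤ dg G F w) (hc : F.card ≤ 16 * β)
    (hm : 100 * (s + m + s * kp l) ≤ 99 * M.card) : Model (T s m) G (L : Set V) := by
  have hb' : s + 2 * (s * kp l) ≤ b := by
    have : s * (2 * kp l + 1) = s + 2 * (s * kp l) := by ring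
    omega
  have hFs : s ≤ F.card := by
    obtain ⟨v, hv⟩ := hne
    have h1 := hF v hv
    have h2 := dg_le_card (G := G) F v
    omega
  obtain ⟨X, hX1, hX2⟩ := Finset.exists_subset_card_eq hFs
  let x : Fin s → V := fun i => ((Finset.equivFinOfCardEq hX2).symm i : V)
  have hx : ∀ i, x i ∈ F := fun i => hX1 ((Finset.equivFinOfCardEq hX2).symm i).2
  have hinj : Function.Injective x := fun i j hij =>
    (Finset.equivFinOfCardEq hX2).symm.injective (Subtype.ext hij)
  obtain ⟨R, hR1, -, -, hR4, hR5, hR6, hR7⟩ := hubs (G := G) (F := F) (M := M) (U₀ := ∅) (β := β)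
    (b := b) (by omega) hrob hF hM hc l (by rw [Finset.card_empty]; omega) hβ x hx
    (fun i => Finset.notMem_empty _) hinj
  have hud := sum_ud hl R hR7
  have hRc : (Finset.univ.biUnion R).card ≤ s * kp l := by
    refine Finset.card_biUnion_le.trans ?_
    refine (Finset.sum_le_sum fun i _ => hR6 i).trans ?_
    rw [Finset.sum_const, Finset.card_univ, Fintype.card_fin, smul_eq_mul]
  refine sys R (M \ (Finset.univ.biUnion R ∪ Finset.univ.biUnion fun i => ud G (R i) M))
    (fun i => (hR1 i).trans hFL) (Finset.sdiff_subset.trans hML) hR5 hR4 ?_ ?_ ?_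
  · intro i
    rw [Finset.disjoint_left]
    intro v hv hv'
    exact (Finset.mem_sdiff.1 hv').2 (Finset.mem_union_left _
      (Finset.mem_biUnion.2 ⟨i, Finset.mem_univ _, hv⟩))
  · intro w hw i
    by_contra hc'
    push Not at hc'
    refine (Finset.mem_sdiff.1 hw).2 (Finset.mem_union_right _
      (Finset.mem_biUnion.2 ⟨i, Finset.mem_univ _, ?_⟩))
    exact mem_ud.2 ⟨(Finset.mem_sdiff.1 hw).1, hc'⟩
  · have h1 := Finset.le_card_sdiff
      (Finset.univ.biUnion R ∪ Finset.univ.biUnion fun i => ud G (R i) M) M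
    have h2 := Finset.card_union_le (Finset.univ.biUnion R)
      (Finset.univ.biUnion fun i => ud G (R i) M)
    omega

theorem case_small {G : SimpleGraph V} {L : Finset V} {s l b a m : ℕ} (hp : Par s l b a)
    (hm : 2 * m ≤ 3 * a) (hG : Good a b G L) (hL : L.card ≤ 12 * a) :
    Model (T s m) G (L : Set V) := by
  have hs1 := hp.s1
  have ha1 := hp.a1
  have hb1 := hp.b1
  have hb' : s + 2 * (s * kp l) ≤ b := by
    have : s * (2 * kp l + 1) = s + 2 * (s * kp l) := by ring
    omega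
  have hbig := hG.big
  have hdeg : ∀ v ∈ L, a ≤ dg G L v := fun v hv => (Nat.le_succ a).trans (hG.deg v hv)
  refine one_set (β := a) (F := L) (M := L) hs1 hp.l1 hb1 (by omega) (Finset.Subset.refl _)
    (Finset.Subset.refl _) hG.rob ?_ hdeg hdeg (by omega) (by omega)
  rw [← Finset.card_pos]
  omega

end Pool.Agent.Lib.MP_426cf1_co
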