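import Pool.Agent.Lib.MP_426cf1_co.MenD

/-!
# JOB Lnk: disjoint connected sets between two subsets of a robust set

Let `GL` be the graph with `GL.Adj u w ↔ G.Adj u w ∧ u ∈ L ∧ w ∈ L`. If `S` separates `F` from `F'` in `GL` and `|S| < s` then there are `x ∈ F \ S`, `y ∈ F' \ S` (`|F|, |F'| ≥ s`) and by `Rob b G L` a walk of `G` from `x` to `y` inside `L \ S`, which is a walk of `GL` (transfer it:
induction on the walk, or `Walk.transfer`), contradiction. So by `menger` there is a linkage of size `s`, trim it (`lk_trim`); `P i` is the support of the `i`-th walk (`List.toFinset`). It is connected (`SimpleGraph.Walk.connected_induce_support`; map the walk to `G`) and contained in `L` (a vertex of a walk of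
`GL` is an end of an edge of `GL` or the walk is trivial with its vertex in `F ⊆ L`).
-/

set_option autoImplicit false

namespace Pool.Agent.Lib.MP_426cf1_co

variable {V : Type*} [DecidableEq V]

theorem link [Finite V] {G : SimpleGraph V} {L F F' : Finset V} {b s : ℕ} (hs : s ≤ b)
    (hL : Rob b G L) (hF : F ⊆ L) (hF' : F' ⊆ L) (h1 : s ≤ F.card) (h2 : s ≤ F'.card) :
    ∃ (x y : Fin s → V) (P : Fin s → Finset V), (∀ i, x i ∈ F) ∧ (∀ i, y i ∈ F') ∧
      (∀ i, x i ∈ P i) ∧ (∀ i, y i ∈ P i) ∧ (∀ i, P i ⊆ L) ∧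
      (∀ i, ∀ v ∈ P i, v ∈ F → v = x i) ∧ (∀ i, ∀ v ∈ P i, v ∈ F' → v = y i) ∧
      (∀ i, (G.induce (P i : Set V)).Connected) ∧ ∀ i j, i ≠ j → Disjoint (P i) (P j) := by
  let G₀ : SimpleGraph V :=
    { Adj := fun u w => G.Adj u w ∧ u ∈ L ∧ w ∈ L
      symm := ⟨fun _ _ h => ⟨h.1.symm, h.2.2, h.2.1⟩⟩
      loopless := ⟨fun _ h => G.loopless.irrefl _ h.1⟩ }
  have hG₀ : G₀ ≤ G := fun u w h => h.1
  have hsep : ∀ S : Finset V, Sep G₀ (F : Set V) (F' : Set V) S → s ≤ S.card := by
    intro S hS
    by_contra hlt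
    push Not at hlt
    obtain ⟨x, hxF, hxS⟩ := Finset.exists_mem_notMem_of_card_lt_card (lt_of_lt_of_le hlt h1)
    obtain ⟨y, hyF, hyS⟩ := Finset.exists_mem_notMem_of_card_lt_card (lt_of_lt_of_le hlt h2)
    obtain ⟨p, hp⟩ := hL S (hlt.le.trans hs) x (hF hxF) hxS y (hF' hyF) hyS
    have ht : ∀ e ∈ p.edges, e ∈ G₀.edgeSet := by
      intro e he
      induction e using Sym2.ind with
      | _ u w =>
        exact ⟨p.adj_of_mem_edges he, (hp u (p.fst_mem_support_of_mem_edges he)).1,
          (hp w (p.snd_mem_support_of_mem_edges he)).1⟩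
    obtain ⟨v, hv, hvS⟩ := hS x hxF y hyF (p.transfer G₀ ht)
    rw [SimpleGraph.Walk.support_transfer] at hv
    exact (hp v hv).2 hvS
  obtain ⟨x, y, p, hx, hy, hdis, hpx, hpy⟩ := lk_trim (menger G₀ (F : Set V) (F' : Set V) s hsep)
  have hin : ∀ {a b : V} (q : G₀.Walk a b), a ∈ L → ∀ v ∈ q.support, v ∈ L := by
    intro a b q
    induction q with
    | nil =>
      intro ha v hv
      rw [SimpleGraph.Walk.support_nil, List.mem_singleton] at hv
      rw [hv]
      exact ha
    | cons h q ih =>
      intro ha v hv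
      rw [SimpleGraph.Walk.support_cons, List.mem_cons] at hv
      rcases hv with hv | hv
      · rw [hv]
        exact ha
      · exact ih h.2.2 v hv
  refine ⟨x, y, fun i => (p i).support.toFinset, fun i => hx i, fun i => hy i, fun i => ?_,
    fun i => ?_, fun i => ?_, fun i v hv hvF => ?_, fun i v hv hvF => ?_, fun i => ?_,
    fun i j hij => ?_⟩
  · exact List.mem_toFinset.2 (p i).start_mem_support
  · exact List.mem_toFinset.2 (p i).end_mem_support
  · intro v hv
    exact hin (p i) (hF (hx i)) v (List.mem_toFinset.1 hv)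
  · exact hpx i v (List.mem_toFinset.1 hv) hvF
  · exact hpy i v (List.mem_toFinset.1 hv) hvF
  · have h3 := ((p i).mapLe hG₀).connected_induce_support
    have h4 : {v | v ∈ ((p i).mapLe hG₀).support} = (((p i).support.toFinset : Finset V) : Set V) := by
      ext v
      rw [Finset.mem_coe, List.mem_toFinset]
      show v ∈ ((p i).mapLe hG₀).support ↔ _
      rw [SimpleGraph.Walk.support_mapLe_eq_support]
    rw [← h4]
    exact h3
  · rw [Finset.disjoint_left]
    intro v hv hv'
    exact hdis i j hij v (List.mem_toFinset.1 hv) (List.mem_toFinset.1 hv')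

end Pool.Agent.Lib.MP_426cf1_co
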