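import Pool.Agent.Lib.MP_426cf1_co.CaseA
import Pool.Agent.Lib.MP_426cf1_co.Lnk

/-!
# JOB CaseB: two linked spots

`F, F' ⊆ L` (possibly equal or overlapping) are robust with degrees `≥ β` inside, `|F|, |F'| ≤ 16 β`, and `|F ∪ F'|` is large. Let `x`, `y`, `P` be given by `link` (`s ≤ b`, `s ≤ β ≤ |F|, |F'|`). `x` and `y` are injective (the `P i` are disjoint).
Let `R` be given by `hubs` for `F`, `M = F`, `U₀ = ∅`, roots `x`. Let `U₀ = (⋃ i, R i) \ {y i}` (`|U₀| ≤ s * kp l`) and `R'` be given by `hubs` for `F'`, `M = F'`, this `U₀`, roots `y` (`s * kp l + s + s * kp l = s (2 kp l + 1) ≤ b`).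
Put `Q i = R i ∪ P i ∪ R' i`: connected (`x i ∈ R i ∩ P i`, `y i ∈ P i ∩ R' i`). They are pairwise disjoint, `i ≠ j`:
* `R i ∩ R j = ∅`, `P i ∩ P j = ∅`, `R' i ∩ R' j = ∅`;
* `v ∈ R i ∩ P j`: `v ∈ F`, so `v = x j ∈ R j`, contradiction;
* `v ∈ P i ∩ R' j`: `v ∈ F'`, so `v = y i ∈ R' i`, contradiction;
* `v ∈ R i ∩ R' j`: `v ∉ U₀` so `v = y k` for some `k`; `v = y k ∈ R' k` so `k = j`; `v = y j ∈ P j` and `v ∈ R i ⊆ F`, so `v = x j ∈ R j`, contradiction.
Leaves: `Λ = (F ∪ F') \ ((⋃ i, Q i) ∪ ...)`: `Λ = Λ₁ ∪ Λ₂`, `Λ₁ = F \ (⋃ Q i ∪ ⋃ ud G (R i) F)`, `Λ₂ = F' \ (⋃ Q i ∪ ⋃ ud G (R' i) F')`. Every vertex of `Λ₁` has a neighbour in every `R i`, every vertex of `Λ₂` one in every `R' i`. `F ∪ F' ⊆ Λ ∪ (⋃ R i) ∪ (⋃ R' i) ∪ ⋃ ud G (R i) F ∪ ⋃ ud G (R' i) F'`, because a vertex of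
`P i` in `F` is `x i ∈ R i`, and one in `F'` is `y i ∈ R' i`; also `R i ⊆ F` may meet `F'` and conversely, but everything is in the union on the right. `100 ∑ |ud G (R i) F| ≤ |F|` (`100 s ≤ 2 ^ l`), `100 ∑ |ud G (R' i) F'| ≤ |F'|`. So
`100 |Λ| ≥ 100 |F ∪ F'| - 200 s * kp l - |F| - |F'|`. Apply `sys`.
-/

set_option autoImplicit false

namespace Pool.Agent.Lib.MP_426cf1_co

variable {V : Type*} [DecidableEq V]

theorem two_sets [Finite V] {G : SimpleGraph V} {L F F' : Finset V} {s l b β m : ℕ} (hs : 1 ≤ s)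
    (hl : 100 * s ≤ 2 ^ l) (hb : s * (2 * kp l + 1) ≤ b) (hβ : 2 * b ≤ β) (hL : Rob b G L)
    (hFL : F ⊆ L) (hFL' : F' ⊆ L) (hrob : Rob b G F) (hrob' : Rob b G F') (hne : F.Nonempty)
    (hne' : F'.Nonempty) (hF : ∀ v ∈ F, β ≤ dg G F v) (hF' : ∀ v ∈ F', β ≤ dg G F' v)
    (hc : F.card ≤ 16 * β) (hc' : F'.card ≤ 16 * β)
    (hm : 100 * (s + m) + 200 * (s * kp l) + F.card + F'.card ≤ 100 * (F ∪ F').card) :
    Model (T s m) G (L : Set V) := by
  have hb' : s + 2 * (s * kp l) ≤ b := by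
    have : s * (2 * kp l + 1) = s + 2 * (s * kp l) := by ring
    omega
  have hFs : s ≤ F.card := by
    obtain ⟨v, hv⟩ := hne
    have h1 := hF v hv
    have h2 := dg_le_card (G := G) F v
    omega
  have hFs' : s ≤ F'.card := by
    obtain ⟨v, hv⟩ := hne'
    have h1 := hF' v hv
    have h2 := dg_le_card (G := G) F' v
    omega
  obtain ⟨x, y, P, hx, hy, hxP, hyP, hPL, hPF, hPF', hPc, hPd⟩ :=
    link (s := s) (b := b) (by omega) hL hFL hFL' hFs hFs'
  have hPd' : ∀ i j v, v ∈ P i → v ∈ P j → i = j := by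
    intro i j v h1 h2
    by_contra h
    exact Finset.disjoint_left.1 (hPd i j h) h1 h2
  have hxi : Function.Injective x := fun i j h => hPd' i j (x i) (hxP i) (h ▸ hxP j)
  have hyi : Function.Injective y := fun i j h => hPd' i j (y i) (hyP i) (h ▸ hyP j)
  obtain ⟨R, hR1, -, hR3, hR4, hR5, hR6, hR7⟩ := hubs (G := G) (F := F) (M := F) (U₀ := ∅)
    (β := β) (b := b) (by omega) hrob hF hF hc l (by rw [Finset.card_empty]; omega) hβ x hx
    (fun i => Finset.notMem_empty _) hxi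
  have hR4' : ∀ i j v, v ∈ R i → v ∈ R j → i = j := by
    intro i j v h1 h2
    by_contra h
    exact Finset.disjoint_left.1 (hR4 i j h) h1 h2
  set U₀ : Finset V := Finset.univ.biUnion R \ Finset.univ.image y with hU₀
  have hRc : (Finset.univ.biUnion R).card ≤ s * kp l := by
    refine Finset.card_biUnion_le.trans ?_
    refine (Finset.sum_le_sum fun i _ => hR6 i).trans ?_
    rw [Finset.sum_const, Finset.card_univ, Fintype.card_fin, smul_eq_mul]
  have hU₀c : U₀.card ≤ s * kp l := (Finset.card_le_card Finset.sdiff_subset).trans hRc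
  obtain ⟨R', hR1', hR2', hR3', hR4'', hR5', hR6', hR7'⟩ := hubs (G := G) (F := F') (M := F')
    (U₀ := U₀) (β := β) (b := b) (by omega) hrob' hF' hF' hc' l (by omega) hβ y hy
    (fun i h => (Finset.mem_sdiff.1 h).2 (Finset.mem_image_of_mem y (Finset.mem_univ i))) hyi
  have hR4s : ∀ i j v, v ∈ R' i → v ∈ R' j → i = j := by
    intro i j v h1 h2
    by_contra h
    exact Finset.disjoint_left.1 (hR4'' i j h) h1 h2
  have hRc' : (Finset.univ.biUnion R').card ≤ s * kp l := by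
    refine Finset.card_biUnion_le.trans ?_
    refine (Finset.sum_le_sum fun i _ => hR6' i).trans ?_
    rw [Finset.sum_const, Finset.card_univ, Fintype.card_fin, smul_eq_mul]
  have hRP : ∀ i j v, v ∈ R i → v ∈ P j → i = j := by
    intro i j v h1 h2
    have h3 := hPF j v h2 (hR1 i h1)
    rw [h3] at h1
    exact hR4' i j (x j) h1 (hR3 j)
  have hPR : ∀ i j v, v ∈ P i → v ∈ R' j → i = j := by
    intro i j v h1 h2
    have h3 := hPF' i v h1 (hR1' j h2)
    rw [h3] at h2
    exact hR4s i j (y i) (hR3' i) h2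
  have hRR : ∀ i j v, v ∈ R i → v ∈ R' j → i = j := by
    intro i j v h1 h2
    have h3 : v ∉ U₀ := fun h => Finset.disjoint_left.1 (hR2' j) h2 h
    have h4 : v ∈ Finset.univ.image y := by
      by_contra h
      exact h3 (Finset.mem_sdiff.2 ⟨Finset.mem_biUnion.2 ⟨i, Finset.mem_univ _, h1⟩, h⟩)
    obtain ⟨k, -, hk⟩ := Finset.mem_image.1 h4
    rw [← hk] at h1 h2
    have h5 : k = j := hR4s k j (y k) (hR3' k) h2
    rw [← h5]
    exact hRP i k (y k) h1 (hyP k)
  set Q : Fin s → Finset V := fun i => R i ∪ P i ∪ R' i with hQ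
  have hQm : ∀ i v, v ∈ Q i ↔ (v ∈ R i ∨ v ∈ P i) ∨ v ∈ R' i := by
    intro i v
    rw [hQ]
    simp only [Finset.mem_union]
  have hQd : ∀ i j v, v ∈ Q i → v ∈ Q j → i = j := by
    intro i j v h1 h2
    rw [hQm] at h1 h2
    rcases h1 with (h1 | h1) | h1 <;> rcases h2 with (h2 | h2) | h2
    · exact hR4' i j v h1 h2
    · exact hRP i j v h1 h2
    · exact hRR i j v h1 h2
    · exact (hRP j i v h2 h1).symm
    · exact hPd' i j v h1 h2
    · exact hPR i j v h1 h2
    · exact (hRR j i v h2 h1).symm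
    · exact (hPR j i v h2 h1).symm
    · exact hR4s i j v h1 h2
  set A₁ := Finset.univ.biUnion fun i => ud G (R i) F with hA₁
  set A₂ := Finset.univ.biUnion fun i => ud G (R' i) F' with hA₂
  have hud := sum_ud hl R hR7
  have hud' := sum_ud hl R' hR7'
  rw [← hA₁] at hud
  rw [← hA₂] at hud'
  set BQ := Finset.univ.biUnion Q with hBQ
  set Λ : Finset V := (F \ (BQ ∪ A₁)) ∪ (F' \ (BQ ∪ A₂)) with hΛ
  refine sys Q Λ ?_ ?_ ?_ ?_ ?_ ?_ ?_
  · intro i v hv
    rw [hQm] at hv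
    rcases hv with (hv | hv) | hv
    · exact hFL (hR1 i hv)
    · exact hPL i hv
    · exact hFL' (hR1' i hv)
  · exact Finset.union_subset (Finset.sdiff_subset.trans hFL) (Finset.sdiff_subset.trans hFL')
  · intro i
    have h1 : ((R i ∪ P i : Finset V) : Set V) = (R i : Set V) ∪ (P i : Set V) :=
      Finset.coe_union _ _
    have h2 : (G.induce ((R i ∪ P i : Finset V) : Set V)).Connected := by
      rw [h1]
      exact SimpleGraph.induce_union_connected (hR5 i).preconnected (hPc i).preconnected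
        ⟨x i, hR3 i, hxP i⟩
    have h3 : ((Q i : Finset V) : Set V) = ((R i ∪ P i : Finset V) : Set V) ∪ (R' i : Set V) :=
      Finset.coe_union _ _
    rw [h3]
    exact SimpleGraph.induce_union_connected h2.preconnected (hR5' i).preconnected
      ⟨y i, Finset.mem_coe.2 (Finset.mem_union_right _ (hyP i)), hR3' i⟩
  · intro i j hij
    rw [Finset.disjoint_left]
    intro v hv hv'
    exact hij (hQd i j v hv hv')
  · intro i
    rw [Finset.disjoint_left]
    intro v hv hv'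
    have hvB : v ∈ BQ := Finset.mem_biUnion.2 ⟨i, Finset.mem_univ _, hv⟩
    rcases Finset.mem_union.1 hv' with h | h
    · exact (Finset.mem_sdiff.1 h).2 (Finset.mem_union_left _ hvB)
    · exact (Finset.mem_sdiff.1 h).2 (Finset.mem_union_left _ hvB)
  · intro w hw i
    rcases Finset.mem_union.1 hw with h | h
    · have h1 : ∃ z ∈ R i, G.Adj w z := by
        by_contra hcc
        push Not at hcc
        exact (Finset.mem_sdiff.1 h).2 (Finset.mem_union_right _
          (Finset.mem_biUnion.2 ⟨i, Finset.mem_univ _, mem_ud.2 ⟨(Finset.mem_sdiff.1 h).1, hcc⟩⟩))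
      obtain ⟨z, hz, hwz⟩ := h1
      exact ⟨z, (hQm i z).2 (Or.inl (Or.inl hz)), hwz⟩
    · have h1 : ∃ z ∈ R' i, G.Adj w z := by
        by_contra hcc
        push Not at hcc
        exact (Finset.mem_sdiff.1 h).2 (Finset.mem_union_right _
          (Finset.mem_biUnion.2 ⟨i, Finset.mem_univ _, mem_ud.2 ⟨(Finset.mem_sdiff.1 h).1, hcc⟩⟩))
      obtain ⟨z, hz, hwz⟩ := h1
      exact ⟨z, (hQm i z).2 (Or.inr hz), hwz⟩
  · have h1 : F ∪ F' ⊆ Λ ∪ (Finset.univ.biUnion R ∪ Finset.univ.biUnion R') ∪ (A₁ ∪ A₂) := by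
      intro v hv
      by_cases hvA : v ∈ A₁ ∪ A₂
      · exact Finset.mem_union_right _ hvA
      refine Finset.mem_union_left _ ?_
      rw [Finset.mem_union, not_or] at hvA
      by_cases hvR : v ∈ Finset.univ.biUnion R ∪ Finset.univ.biUnion R'
      · exact Finset.mem_union_right _ hvR
      refine Finset.mem_union_left _ ?_
      rw [Finset.mem_union, not_or] at hvR
      have hvQ : v ∉ BQ := by
        intro hvQ
        obtain ⟨i, -, hi⟩ := Finset.mem_biUnion.1 hvQ
        rw [hQm] at hi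
        rcases hi with (hi | hi) | hi
        · exact hvR.1 (Finset.mem_biUnion.2 ⟨i, Finset.mem_univ _, hi⟩)
        · rcases Finset.mem_union.1 hv with h | h
          · rw [hPF i v hi h] at hvR
            exact hvR.1 (Finset.mem_biUnion.2 ⟨i, Finset.mem_univ _, hR3 i⟩)
          · rw [hPF' i v hi h] at hvR
            exact hvR.2 (Finset.mem_biUnion.2 ⟨i, Finset.mem_univ _, hR3' i⟩)
        · exact hvR.2 (Finset.mem_biUnion.2 ⟨i, Finset.mem_univ _, hi⟩)
      rcases Finset.mem_union.1 hv with h | h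
      · refine Finset.mem_union_left _ (Finset.mem_sdiff.2 ⟨h, ?_⟩)
        rw [Finset.mem_union, not_or]
        exact ⟨hvQ, hvA.1⟩
      · refine Finset.mem_union_right _ (Finset.mem_sdiff.2 ⟨h, ?_⟩)
        rw [Finset.mem_union, not_or]
        exact ⟨hvQ, hvA.2⟩
    have h2 := Finset.card_le_card h1
    have h3 := Finset.card_union_le (Λ ∪ (Finset.univ.biUnion R ∪ Finset.univ.biUnion R'))
      (A₁ ∪ A₂)
    have h4 := Finset.card_union_le Λ (Finset.univ.biUnion R ∪ Finset.univ.biUnion R')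
    have h5 := Finset.card_union_le (Finset.univ.biUnion R) (Finset.univ.biUnion R')
    have h6 := Finset.card_union_le A₁ A₂
    omega

end Pool.Agent.Lib.MP_426cf1_co
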