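import Pool.Agent.Lib.MP_426cf1_co.Defs

/-!
# JOB Cnt: counting edges

`dg G L v` is the number of neighbours of `v` in `L`, `e2 G L = ∑ v ∈ L, dg G L v` is twice the number of edges inside `L`; it is also the number of pairs
`(u, w) ∈ L ×ˢ L` with `G.Adj u w` (`e2_pairs`; `Finset.card_sigma`, `Finset.card_filter`, `Finset.sum_product`).
* `dg_erase`: `dg G (L.erase y) v = dg G L v` minus `1` if `G.Adj v y`, `y ∈ L`.
* `e2_erase`: pairs containing `y` : `2 * dg G L y` many.
* `e2_le`: `dg G L v ≤ |L| - 1` for `v ∈ L` (`v` is not its own neighbour).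
* `e2_union`: every pair `(u, w)` of adjacent vertices of `L` lies in `A ×ˢ A` or in `B ×ˢ B`.
* `e2_del`: the pairs `(x, y)` and `(y, x)` are the ones which disappear.
* `e2_contr`: let `π y = x`, `π v = v` for `v ≠ y`. Remove from the set of adjacent pairs of `G` in `L` the pairs `(x, y)`, `(y, x)` and the pairs `(y, w)`, `(w, y)` with `w` a common neighbour
  of `x` and `y` in `L` (altogether at most `2 + 2 * cm G L x y` pairs). On the remaining pairs the map `(u, w) ↦ (π u, π w)` is injective (a pair `(y, w)` is mapped to `(x, w)`, and `(x, w)` is not an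
  adjacent pair of `G`) with values in the adjacent pairs of `contr G x y` in `L.erase y`.
-/

set_option autoImplicit false

namespace Pool.Agent.Lib.MP_426cf1_co

variable {V : Type*} [DecidableEq V] {G : SimpleGraph V} {L : Finset V}

open Classical in
theorem e2_pairs (G : SimpleGraph V) (L : Finset V) :
    e2 G L = ((L ×ˢ L).filter fun p : V × V => G.Adj p.1 p.2).card := by
  unfold e2 dg
  rw [Finset.card_filter, Finset.sum_product]
  refine Finset.sum_congr rfl fun v _ => ?_
  rw [Finset.card_filter]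

theorem dg_mono {L L' : Finset V} (h : L ⊆ L') (v : V) : dg G L v ≤ dg G L' v := by
  classical
  exact Finset.card_le_card (Finset.filter_subset_filter _ h)

theorem dg_union_le (L L' : Finset V) (v : V) : dg G (L ∪ L') v ≤ dg G L v + dg G L' v := by
  classical
  unfold dg
  rw [Finset.filter_union]
  exact Finset.card_union_le _ _

theorem dg_le_card (L : Finset V) (v : V) : dg G L v ≤ L.card := by
  classical
  exact Finset.card_filter_le _ _

theorem dg_lt_card {v : V} (hv : v ∈ L) : dg G L v + 1 ≤ L.card := by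
  classical
  exact Finset.card_lt_card (Finset.filter_ssubset.2 ⟨v, hv, G.irrefl⟩)

/-- removing a set `U` -/
theorem dg_sdiff (L U : Finset V) (v : V) : dg G L v ≤ dg G (L \ U) v + U.card := by
  refine (dg_mono (L' := (L \ U) ∪ U) ?_ v).trans ((dg_union_le _ _ v).trans ?_)
  · intro w hw
    by_cases h : w ∈ U
    · exact Finset.mem_union_right _ h
    · exact Finset.mem_union_left _ (Finset.mem_sdiff.2 ⟨hw, h⟩)
  · exact Nat.add_le_add_left (dg_le_card U v) _

open Classical in
private theorem cnt_erase {y : V} (hy : y ∈ L) (v : V) :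
    dg G L v = dg G (L.erase y) v + if G.Adj v y then 1 else 0 := by
  unfold dg
  conv_lhs => rw [← Finset.insert_erase hy]
  rw [Finset.filter_insert]
  split_ifs with h
  · rw [Finset.card_insert_of_notMem]
    simp
  · rfl

private theorem cnt_self {y : V} (hy : y ∈ L) : dg G (L.erase y) y = dg G L y := by
  classical
  have h := cnt_erase (G := G) hy y
  rw [if_neg G.irrefl] at h
  omega

theorem e2_erase {y : V} (hy : y ∈ L) : e2 G (L.erase y) + 2 * dg G L y = e2 G L := by
  classical
  have h1 : e2 G L = dg G L y + ∑ v ∈ L.erase y, dg G L v := by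
    unfold e2
    rw [Finset.add_sum_erase _ _ hy]
  have h2 : ∑ v ∈ L.erase y, dg G L v =
      e2 G (L.erase y) + ∑ v ∈ L.erase y, (if G.Adj v y then 1 else 0) := by
    unfold e2
    rw [← Finset.sum_add_distrib]
    exact Finset.sum_congr rfl fun v _ => cnt_erase hy v
  have h3 : ∑ v ∈ L.erase y, (if G.Adj v y then 1 else 0) = dg G L y := by
    rw [← cnt_self hy, dg, Finset.card_filter]
    refine Finset.sum_congr rfl fun v _ => ?_
    simp only [G.adj_comm v y]
  rw [h1, h2, h3]
  ring

theorem e2_le (G : SimpleGraph V) (L : Finset V) : e2 G L + L.card ≤ L.card * L.card := by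
  have h : ∑ v ∈ L, (dg G L v + 1) ≤ ∑ _v ∈ L, L.card :=
    Finset.sum_le_sum fun v hv => dg_lt_card hv
  rw [Finset.sum_add_distrib] at h
  simpa [e2] using h

theorem e2_union {A B : Finset V} (hAB : A ∪ B = L)
    (h : ∀ u ∈ L, ∀ w ∈ L, G.Adj u w → (u ∈ A ∧ w ∈ A) ∨ (u ∈ B ∧ w ∈ B)) :
    e2 G L ≤ e2 G A + e2 G B := by
  classical
  rw [e2_pairs, e2_pairs, e2_pairs]
  refine (Finset.card_le_card ?_).trans (Finset.card_union_le _ _)
  rintro ⟨u, w⟩ hp
  rw [Finset.mem_filter, Finset.mem_product] at hp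
  rw [Finset.mem_union, Finset.mem_filter, Finset.mem_filter, Finset.mem_product,
    Finset.mem_product]
  rcases h u hp.1.1 w hp.1.2 hp.2 with h1 | h1
  · exact Or.inl ⟨h1, hp.2⟩
  · exact Or.inr ⟨h1, hp.2⟩

theorem e2_del {x y : V} (hx : x ∈ L) (hy : y ∈ L) (hxy : G.Adj x y) :
    e2 (G.deleteEdges {s(x, y)}) L + 2 = e2 G L := by
  classical
  rw [e2_pairs, e2_pairs]
  have hne : x ≠ y := hxy.ne
  have h1 : ({(x, y), (y, x)} : Finset (V × V)).card = 2 := by
    rw [Finset.card_pair]
    intro h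
    exact hne (Prod.mk.inj h).1
  rw [← h1, ← Finset.card_union_of_disjoint]
  · congr 1
    ext ⟨u, w⟩
    simp only [Finset.mem_union, Finset.mem_filter, Finset.mem_product, Finset.mem_insert,
      Finset.mem_singleton, SimpleGraph.deleteEdges_adj, Set.mem_singleton_iff, Sym2.eq_iff,
      Prod.mk.injEq]
    constructor
    · rintro (⟨h2, h3, -⟩ | ⟨rfl, rfl⟩ | ⟨rfl, rfl⟩)
      · exact ⟨h2, h3⟩
      · exact ⟨⟨hx, hy⟩, hxy⟩
      · exact ⟨⟨hy, hx⟩, hxy.symm⟩
    · rintro ⟨h2, h3⟩
      by_cases h4 : (u = x ∧ w = y) ∨ u = y ∧ w = x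
      · exact Or.inr h4
      · exact Or.inl ⟨h2, h3, h4⟩
  · rw [Finset.disjoint_left]
    rintro ⟨u, w⟩ h2 h3
    simp only [Finset.mem_filter, Finset.mem_insert,
      Finset.mem_singleton, SimpleGraph.deleteEdges_adj, Set.mem_singleton_iff, Sym2.eq_iff,
      Prod.mk.injEq] at h2 h3
    exact h2.2.2 h3

private theorem cnt_inj {x y u w u' w' : V} (huw : G.Adj u w) (huw' : G.Adj u' w')
    (h2 : ¬ (u' = x ∧ w' = y)) (hc : ¬ (u = y ∧ G.Adj x w ∧ G.Adj y w))
    (e1 : (if u = y then x else u) = if u' = y then x else u')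
    (e2 : (if w = y then x else w) = if w' = y then x else w') (hu : u = y) : u' = y := by
  by_contra hu'
  rw [if_pos hu, if_neg hu'] at e1
  have hw : w ≠ y := fun h => huw.ne (hu.trans h.symm)
  have hw' : w' ≠ y := fun h => h2 ⟨e1.symm, h⟩
  rw [if_neg hw, if_neg hw'] at e2
  exact hc ⟨hu, by rw [e1, e2]; exact huw', hu ▸ huw⟩

theorem e2_contr {x y : V} (hx : x ∈ L) (hy : y ∈ L) (hxy : G.Adj x y) :
    e2 G L ≤ e2 (contr G x y) (L.erase y) + 2 + 2 * cm G L x y := by
  classical
  set C : Finset V := L.filter fun w => G.Adj x w ∧ G.Adj y w with hC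
  have hcm : cm G L x y = C.card := rfl
  set P : Finset (V × V) := (L ×ˢ L).filter fun p : V × V => G.Adj p.1 p.2 with hP
  set B : Finset (V × V) := {(x, y), (y, x)} ∪ (({y} ×ˢ C) ∪ (C ×ˢ {y})) with hB
  have hBc : B.card ≤ 2 + 2 * C.card := by
    refine (Finset.card_union_le _ _).trans ?_
    have h1 : ({(x, y), (y, x)} : Finset (V × V)).card ≤ 2 := Finset.card_le_two
    have h2 : (({y} ×ˢ C) ∪ (C ×ˢ {y})).card ≤ 2 * C.card := by
      refine (Finset.card_union_le _ _).trans ?_
      rw [Finset.card_product, Finset.card_product, Finset.card_singleton]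
      omega
    omega
  have hle : (P \ B).card ≤ e2 (contr G x y) (L.erase y) := by
    rw [e2_pairs]
    set q : V → V := fun v => if v = y then x else v with hq
    refine Finset.card_le_card_of_injOn (fun p => (q p.1, q p.2)) ?_ ?_
    · rintro ⟨u, w⟩ hp
      have hp' : (u, w) ∈ P \ B := hp
      rw [Finset.mem_sdiff, hP, Finset.mem_filter, Finset.mem_product] at hp'
      obtain ⟨⟨⟨hu, hw⟩, huw⟩, hnB⟩ := hp'
      simp only at hu hw huw
      have hqL : ∀ v ∈ L, q v ∈ L.erase y := by
        intro v hv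
        simp only [hq]
        split_ifs with h
        · exact Finset.mem_erase.2 ⟨hxy.ne, hx⟩
        · exact Finset.mem_erase.2 ⟨h, hv⟩
      have hxy1 : ¬ (u = x ∧ w = y) := by
        rintro ⟨rfl, rfl⟩; exact hnB (by simp [hB])
      have hxy2 : ¬ (u = y ∧ w = x) := by
        rintro ⟨rfl, rfl⟩; exact hnB (by simp [hB])
      refine Finset.mem_coe.2 (Finset.mem_filter.2 ⟨Finset.mem_product.2 ⟨hqL u hu, hqL w hw⟩, ?_⟩)
      show q u ≠ q w ∧ (G.Adj (q u) (q w) ∨ (q u = x ∧ G.Adj y (q w)) ∨ (q w = x ∧ G.Adj y (q u)))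
      simp only [hq]
      by_cases h1 : u = y
      · by_cases h2 : w = y
        · exact absurd (h1.trans h2.symm) huw.ne
        · rw [if_pos h1, if_neg h2]
          refine ⟨?_, Or.inr (Or.inl ⟨rfl, h1 ▸ huw⟩)⟩
          intro h; exact hxy2 ⟨h1, h.symm⟩
      · by_cases h2 : w = y
        · rw [if_neg h1, if_pos h2]
          refine ⟨?_, Or.inr (Or.inr ⟨rfl, h2 ▸ huw.symm⟩)⟩
          intro h; exact hxy1 ⟨h, h2⟩
        · rw [if_neg h1, if_neg h2]
          exact ⟨huw.ne, Or.inl huw⟩
    · rintro ⟨u, w⟩ hp ⟨u', w'⟩ hp' heq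
      have hp1 : (u, w) ∈ P \ B := hp
      have hp2 : (u', w') ∈ P \ B := hp'
      rw [Finset.mem_sdiff, hP, Finset.mem_filter, Finset.mem_product] at hp1 hp2
      obtain ⟨⟨⟨hu, hw⟩, huw⟩, hnB⟩ := hp1
      obtain ⟨⟨⟨hu', hw'⟩, huw'⟩, hnB'⟩ := hp2
      simp only at hu hw huw hu' hw' huw'
      simp only [hB, hC, Finset.mem_union, Finset.mem_insert, Finset.mem_singleton,
        Prod.mk.injEq, Finset.mem_product, Finset.mem_filter] at hnB hnB'
      obtain ⟨e1, e2⟩ := Prod.mk.inj heq
      simp only [hq] at e1 e2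
      have a1 : u = y ↔ u' = y := by
        constructor
        · refine cnt_inj huw huw' ?_ ?_ e1 e2
          · rintro h; exact hnB' (Or.inl (Or.inl h))
          · rintro ⟨h, h', h''⟩; exact hnB (Or.inr (Or.inl ⟨h, hw, h', h''⟩))
        · refine cnt_inj huw' huw ?_ ?_ e1.symm e2.symm
          · rintro h; exact hnB (Or.inl (Or.inl h))
          · rintro ⟨h, h', h''⟩; exact hnB' (Or.inr (Or.inl ⟨h, hw', h', h''⟩))
      have a2 : w = y ↔ w' = y := by
        constructor
        · refine cnt_inj huw.symm huw'.symm ?_ ?_ e2 e1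
          · rintro ⟨h, h'⟩; exact hnB' (Or.inl (Or.inr ⟨h', h⟩))
          · rintro ⟨h, h', h''⟩; exact hnB (Or.inr (Or.inr ⟨⟨hu, h', h''⟩, h⟩))
        · refine cnt_inj huw'.symm huw.symm ?_ ?_ e2.symm e1.symm
          · rintro ⟨h, h'⟩; exact hnB (Or.inl (Or.inr ⟨h', h⟩))
          · rintro ⟨h, h', h''⟩; exact hnB' (Or.inr (Or.inr ⟨⟨hu', h', h''⟩, h⟩))
      have b1 : u = u' := by
        by_cases h : u = y
        · exact h.trans (a1.1 h).symm
        · rwa [if_neg h, if_neg fun h' => h (a1.2 h')] at e1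
      have b2 : w = w' := by
        by_cases h : w = y
        · exact h.trans (a2.1 h).symm
        · rwa [if_neg h, if_neg fun h' => h (a2.2 h')] at e2
      rw [b1, b2]
  have hPc : P.card ≤ (P \ B).card + B.card := by
    have := Finset.card_le_card_sdiff_add_card (s := P) (t := B)
    exact this
  rw [e2_pairs, hcm]
  have : ((L ×ˢ L).filter fun p : V × V => G.Adj p.1 p.2).card = P.card := rfl
  omega

end Pool.Agent.Lib.MP_426cf1_co
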