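import Pool.Agent.Lib.MP_426cf1_co.Cnt

/-!
# JOB Col: colourings with defect one

`peel`: by induction on `|L|`, for `L ⊆ S`: `e2 G L + 4 k |L| ≤ 4 ∑ v ∈ L, dg G S v`: choose `v ∈ L` by `h` (`L` not empty), `e2 G L = e2 G (L.erase v) + 2 dg G L v` and `2 dg G L v + 4 k ≤ 4 dg G S v`. For `L = S`: `e2 + 4 k |S| ≤ 4 e2`.

`recol`: among all maps `c : V → Fin k` with `c v ∈ A v` for `v ∈ L` (there is one: `A v ≠ ∅`; for `v ∉ L` use any value) choose one for which the number of the pairs `(u, w) ∈ L ×ˢ L`, `G.Adj u w`, `c u = c w` is minimal (there are finitely many values; `Nat.find` or `WellFounded.has_min` on the set of the numbers). Let `v ∈ L`,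
`D = {w ∈ L : G.Adj v w}`, and let `N i = |{w ∈ D : c w = i}|` for `i ∈ A v`. Recolouring `v` with the colour `i` changes the number of the pairs by `2 (N i - N (c v))`, so `N (c v) ≤ N i` for all `i ∈ A v`. Hence
`|A v| * N (c v) ≤ ∑ i ∈ A v, N i ≤ |D| = dg G L v < 2 |A v|`, `N (c v) ≤ 1`.

`col_set`: induction on `|S|`: there is `c : V → Fin k` with at most one neighbour of the same colour inside `S` for every `v ∈ S`. `S = ∅` is clear. If for every non-empty `L ⊆ S` there is `v ∈ L` with `dg G L v + 2 k ≤ 2 dg G S v` then `peel` contradicts `h`. So there is a non-empty `L ⊆ S` with `2 dg G S v < dg G L v + 2 k` for all `v ∈ L`. Let `c` be a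
colouring for `S \ L` (induction). For `v ∈ L` let `A v` be the set of the colours different from the colours `c w` of the neighbours `w ∈ S \ L` of `v`: `|A v| ≥ k - dg G (S \ L) v = k - dg G S v + dg G L v`, so `2 |A v| > dg G L v`. Let `c'` be given by `recol`, and colour `L` with `c'`, the rest with `c`. A vertex of `L` has no
neighbour of its colour in `S \ L`, and conversely.
-/

set_option autoImplicit false

namespace Pool.Agent.Lib.MP_426cf1_co

variable {V : Type*} [DecidableEq V]

theorem peel {G : SimpleGraph V} {S : Finset V} {k : ℕ}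
    (h : ∀ L ⊆ S, L.Nonempty → ∃ v ∈ L, dg G L v + 2 * k ≤ 2 * dg G S v) :
    4 * k * S.card ≤ 3 * e2 G S := by
  have key : ∀ n : ℕ, ∀ L ⊆ S, L.card = n →
      e2 G L + 4 * k * L.card ≤ 4 * ∑ v ∈ L, dg G S v := by
    intro n
    induction n with
    | zero =>
      intro L _ hn
      rw [Finset.card_eq_zero] at hn
      subst hn
      simp [e2]
    | succ n ih =>
      intro L hL hn
      obtain ⟨v, hv, hd⟩ := h L hL (Finset.card_pos.mp (by omega))
      have h1 := e2_erase (G := G) hv
      have hc : (L.erase v).card = n := by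
        rw [Finset.card_erase_of_mem hv]
        omega
      have h2 := ih (L.erase v) ((Finset.erase_subset v L).trans hL) hc
      have h3 := Finset.add_sum_erase L (fun v => dg G S v) hv
      rw [hc] at h2
      rw [hn, ← h3, ← h1]
      have h4 : 4 * k * (n + 1) = 4 * k * n + 4 * k := by ring
      rw [h4]
      omega
  have h1 := key S.card S (Finset.Subset.refl S) rfl
  have h2 : ∑ v ∈ S, dg G S v = e2 G S := rfl
  rw [h2] at h1
  omega

private theorem Col_split (L : Finset V) {v : V} (hv : v ∈ L) (f : V → V → ℕ)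
    (hs : ∀ u w, f u w = f w u) (h0 : f v v = 0) :
    ∑ u ∈ L, ∑ w ∈ L, f u w =
      ∑ u ∈ L.erase v, ∑ w ∈ L.erase v, f u w + 2 * ∑ w ∈ L.erase v, f v w := by
  have h1 : ∀ u, ∑ w ∈ L, f u w = f u v + ∑ w ∈ L.erase v, f u w := fun u =>
    (Finset.add_sum_erase L (fun w => f u w) hv).symm
  rw [← Finset.add_sum_erase L (fun u => ∑ w ∈ L, f u w) hv]
  simp only [h1, Finset.sum_add_distrib, h0]
  have h2 : ∑ u ∈ L.erase v, f u v = ∑ w ∈ L.erase v, f v w :=
    Finset.sum_congr rfl fun u _ => hs u v
  rw [h2]
  ring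

open Classical in
/-- the number of monochromatic pairs -/
private noncomputable def Col_F (G : SimpleGraph V) {C : Type*} (c : V → C) (u w : V) : ℕ :=
  if G.Adj u w ∧ c w = c u then 1 else 0

omit [DecidableEq V] in
private theorem Col_F_symm (G : SimpleGraph V) {C : Type*} (c : V → C) (u w : V) :
    Col_F G c u w = Col_F G c w u := by
  unfold Col_F
  have h : (G.Adj u w ∧ c w = c u) ↔ (G.Adj w u ∧ c u = c w) :=
    ⟨fun h => ⟨h.1.symm, h.2.symm⟩, fun h => ⟨h.1.symm, h.2.symm⟩⟩
  by_cases h1 : G.Adj u w ∧ c w = c u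
  · rw [if_pos h1, if_pos (h.mp h1)]
  · rw [if_neg h1, if_neg (fun h2 => h1 (h.mpr h2))]

omit [DecidableEq V] in
private theorem Col_F_self (G : SimpleGraph V) {C : Type*} (c : V → C) (v : V) :
    Col_F G c v v = 0 := by
  unfold Col_F
  rw [if_neg]
  rintro ⟨h, -⟩
  exact G.loopless.irrefl v h

omit [DecidableEq V] in
open Classical in
private theorem Col_min {C : Type*} (P : (V → C) → Prop) (Φ : (V → C) → ℕ)
    (h : ∃ c, P c) : ∃ c, P c ∧ ∀ c', P c' → Φ c ≤ Φ c' := by
  have hex : ∃ n, ∃ c, P c ∧ Φ c = n := by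
    obtain ⟨c, hc⟩ := h
    exact ⟨_, c, hc, rfl⟩
  obtain ⟨c, hc, hn⟩ := Nat.find_spec hex
  refine ⟨c, hc, fun c' hc' => ?_⟩
  rw [hn]
  exact Nat.find_min' hex ⟨c', hc', rfl⟩

open Classical in
theorem recol {G : SimpleGraph V} {L : Finset V} {C : Type*} [Nonempty C] (A : V → Finset C)
    (h : ∀ v ∈ L, dg G L v < 2 * (A v).card) :
    ∃ c : V → C, (∀ v ∈ L, c v ∈ A v) ∧
      ∀ v ∈ L, (L.filter fun w => G.Adj v w ∧ c w = c v).card ≤ 1 := by
  have hne : ∀ v ∈ L, (A v).Nonempty := fun v hv => Finset.card_pos.mp (by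
    have := h v hv
    omega)
  obtain ⟨c, hc, hmin⟩ := Col_min (fun c : V → C => ∀ v ∈ L, c v ∈ A v)
    (fun c => ∑ u ∈ L, ∑ w ∈ L, Col_F G c u w) (by
      refine ⟨fun v => if hv : v ∈ L then (hne v hv).choose else Classical.arbitrary C, fun v hv => ?_⟩
      simp only [hv, dif_pos]
      exact (hne v hv).choose_spec)
  refine ⟨c, hc, fun v hv => ?_⟩
  -- the number of neighbours of colour `i`
  have hN : ∀ i ∈ A v, ((L.filter fun w => G.Adj v w).filter fun w => c w = c v).card ≤
      ((L.filter fun w => G.Adj v w).filter fun w => c w = i).card := by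
    intro i hi
    have h1 := hmin (Function.update c v i) (by
      intro u hu
      by_cases huv : u = v
      · subst huv
        rw [Function.update_self]
        exact hi
      · rw [Function.update_of_ne huv]
        exact hc u hu)
    rw [Col_split L hv _ (Col_F_symm G c) (Col_F_self G c v),
      Col_split L hv _ (Col_F_symm G (Function.update c v i))
        (Col_F_self G (Function.update c v i) v)] at h1
    have h2 : ∑ u ∈ L.erase v, ∑ w ∈ L.erase v, Col_F G (Function.update c v i) u w =
        ∑ u ∈ L.erase v, ∑ w ∈ L.erase v, Col_F G c u w := by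
      refine Finset.sum_congr rfl fun u hu => Finset.sum_congr rfl fun w hw => ?_
      unfold Col_F
      rw [Function.update_of_ne (Finset.ne_of_mem_erase hu),
        Function.update_of_ne (Finset.ne_of_mem_erase hw)]
    have h3 : ∑ w ∈ L.erase v, Col_F G c v w =
        ((L.filter fun w => G.Adj v w).filter fun w => c w = c v).card := by
      rw [Finset.filter_filter, Finset.card_filter, ← Finset.add_sum_erase L _ hv]
      have h4 : (if G.Adj v v ∧ c v = c v then 1 else 0) = 0 :=
        if_neg fun h => G.loopless.irrefl v h.1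
      rw [h4, zero_add]
      rfl
    have h5 : ∑ w ∈ L.erase v, Col_F G (Function.update c v i) v w =
        ((L.filter fun w => G.Adj v w).filter fun w => c w = i).card := by
      rw [Finset.filter_filter, Finset.card_filter, ← Finset.add_sum_erase L _ hv]
      have h4 : (if G.Adj v v ∧ c v = i then 1 else 0) = 0 :=
        if_neg fun h => G.loopless.irrefl v h.1
      rw [h4, zero_add]
      refine Finset.sum_congr rfl fun w hw => ?_
      unfold Col_F
      rw [Function.update_self, Function.update_of_ne (Finset.ne_of_mem_erase hw)]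
    rw [h2, h3, h5] at h1
    omega
  have h6 : (A v).card * ((L.filter fun w => G.Adj v w).filter fun w => c w = c v).card ≤
      dg G L v := by
    have h7 := Finset.card_nsmul_le_sum (A v)
      (fun i => ((L.filter fun w => G.Adj v w).filter fun w => c w = i).card) _ hN
    rw [smul_eq_mul] at h7
    refine h7.trans ?_
    have h10 : ∑ i ∈ A v, ((L.filter fun w => G.Adj v w).filter fun w => c w = i).card =
        ((L.filter fun w => G.Adj v w).filter fun w => c w ∈ A v).card := by
      convert Finset.sum_card_fiberwise_eq_card_filter (L.filter fun w => G.Adj v w) (A v) c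
    rw [h10]
    exact Finset.card_le_card (Finset.filter_subset _ _)
  have h8 := h v hv
  have h9 : ((L.filter fun w => G.Adj v w).filter fun w => c w = c v).card < 2 := by
    by_contra hcon
    push Not at hcon
    have := Nat.mul_le_mul_left (A v).card hcon
    omega
  rw [Finset.filter_filter] at h9
  omega

open Classical in
theorem col_set {G : SimpleGraph V} {k : ℕ} {C : Type*} [Nonempty C] (A : V → Finset C)
    (hA : ∀ v, k ≤ (A v).card) (S : Finset V)
    (h : ∀ L ⊆ S, L.Nonempty → 3 * e2 G L < 4 * k * L.card) :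
    ∃ c : V → C, (∀ v ∈ S, c v ∈ A v) ∧
      ∀ v ∈ S, (S.filter fun w => G.Adj v w ∧ c w = c v).card ≤ 1 := by
  induction S using Finset.strongInduction with
  | H S ih =>
    rcases S.eq_empty_or_nonempty with rfl | hS
    · exact ⟨fun _ => Classical.arbitrary C, fun v hv => absurd hv (Finset.notMem_empty v),
        fun v hv => absurd hv (Finset.notMem_empty v)⟩
    obtain ⟨L, hLS, hL, hd⟩ : ∃ L ⊆ S, L.Nonempty ∧
        ∀ v ∈ L, 2 * dg G S v < dg G L v + 2 * k := by
      by_contra hcon
      push Not at hcon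
      have h1 := peel (G := G) (S := S) (k := k) hcon
      have h2 := h S (Finset.Subset.refl S) hS
      omega
    have hsub : S \ L ⊂ S := Finset.sdiff_ssubset hLS hL
    obtain ⟨c₀, hc₀A, hc₀⟩ := ih (S \ L) hsub (fun L' hL' => h L' (hL'.trans hsub.subset))
    have hdg : ∀ v, dg G S v = dg G L v + dg G (S \ L) v := by
      intro v
      unfold dg
      rw [← Finset.card_union_of_disjoint, ← Finset.filter_union,
        Finset.union_sdiff_of_subset hLS]
      exact Finset.disjoint_filter_filter Finset.disjoint_sdiff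
    obtain ⟨c', hc'A, hc'⟩ := recol (G := G) (L := L)
      (fun v => A v \ (((S \ L).filter fun w => G.Adj v w).image c₀)) (by
        intro v hv
        have h1 := Finset.le_card_sdiff (((S \ L).filter fun w => G.Adj v w).image c₀) (A v)
        have h4 := hA v
        have h2 : (((S \ L).filter fun w => G.Adj v w).image c₀).card ≤ dg G (S \ L) v :=
          Finset.card_image_le
        have h3 := hd v hv
        rw [hdg v] at h3
        omega)
    have hne : ∀ v ∈ L, ∀ w ∈ S \ L, G.Adj v w → c' v ≠ c₀ w := by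
      intro v hv w hw hvw heq
      have h1 := hc'A v hv
      rw [Finset.mem_sdiff] at h1
      apply h1.2
      rw [heq]
      exact Finset.mem_image_of_mem c₀ (Finset.mem_filter.mpr ⟨hw, hvw⟩)
    refine ⟨fun v => if v ∈ L then c' v else c₀ v, fun v hv => ?_, fun v hv => ?_⟩
    · by_cases hvL : v ∈ L
      · simp only [hvL, if_true]
        have h1 := hc'A v hvL
        rw [Finset.mem_sdiff] at h1
        exact h1.1
      · simp only [hvL, if_false]
        exact hc₀A v (Finset.mem_sdiff.mpr ⟨hv, hvL⟩)
    by_cases hvL : v ∈ L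
    · refine (Finset.card_le_card ?_).trans (hc' v hvL)
      intro w hw
      rw [Finset.mem_filter] at hw ⊢
      obtain ⟨hwS, hvw, heq⟩ := hw
      simp only at heq
      rw [if_pos hvL] at heq
      by_cases hwL : w ∈ L
      · rw [if_pos hwL] at heq
        exact ⟨hwL, hvw, heq⟩
      · rw [if_neg hwL] at heq
        exact absurd heq.symm (hne v hvL w (Finset.mem_sdiff.mpr ⟨hwS, hwL⟩) hvw)
    · refine (Finset.card_le_card ?_).trans (hc₀ v (Finset.mem_sdiff.mpr ⟨hv, hvL⟩))
      intro w hw
      rw [Finset.mem_filter] at hw ⊢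
      obtain ⟨hwS, hvw, heq⟩ := hw
      simp only at heq
      rw [if_neg hvL] at heq
      by_cases hwL : w ∈ L
      · rw [if_pos hwL] at heq
        exact absurd heq (hne w hwL v (Finset.mem_sdiff.mpr ⟨hv, hvL⟩) hvw.symm)
      · rw [if_neg hwL] at heq
        exact ⟨Finset.mem_sdiff.mpr ⟨hwS, hwL⟩, hvw, heq⟩

end Pool.Agent.Lib.MP_426cf1_co
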