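import Pool.Agent.Lib.MP_426cf1_co.Mod

/-!
# JOB Def1: no model in a colour class of defect one; the star join

`no_model`: every vertex of `X` has at most one neighbour in `X`; `H` is connected with at least three vertices. Then `H` has no model inside `X`. `H` has a vertex `a` with two different neighbours `b`, `c` (connected, at least three vertices: otherwise all degrees are at most one; take an edge `a b` (exists), a third vertex `c`, and a walk from `a` to `c`:
some vertex of it has two neighbours; or: `{a, b}` would be a connected component). The branch set `f a` is connected and has edges to `f b` and `f c`: `x ∈ f a`, `y ∈ f b` adjacent, `x' ∈ f a`, `y' ∈ f c` adjacent. If `x = x'` it has two neighbours `y ≠ y'` in `X`. If `x ≠ x'` then `x` has a neighbour in `f a` (a connected graph on at least two vertices) and the neighbour `y ∉ f a`, contradiction.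

`star_model`: `T (h + 1) m` with `h = |W|` contains the join of the star `K_{1,m}` and `H`: take `e : Fin (h + 1) ≃ Option W` or `W ⊕ Fin 1`; branch sets: centre of the star and the vertices of `H` are the `inl` ones, the leaves of the star the `inr` ones.
-/

set_option autoImplicit false

namespace Pool.Agent.Lib.MP_426cf1_co

variable {V W : Type*}

private theorem Def1_closed {H : SimpleGraph W} (S : Set W)
    (hS : ∀ x ∈ S, ∀ y, H.Adj x y → y ∈ S) {u v : W} (p : H.Walk u v) (hu : u ∈ S) : v ∈ S := by
  induction p with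
  | nil => exact hu
  | cons h _ ih => exact ih (hS _ hu _ h)

private theorem Def1_fork {H : SimpleGraph W} [Fintype W] (hH : H.Connected)
    (hW : 3 ≤ Fintype.card W) : ∃ a b c : W, b ≠ c ∧ H.Adj a b ∧ H.Adj a c := by
  classical
  by_contra hcon
  push Not at hcon
  have huniq : ∀ a b c : W, H.Adj a b → H.Adj a c → b = c := by
    intro a b c hab hac
    by_contra hbc
    exact hcon a b c hbc hab hac
  obtain ⟨u⟩ := hH.nonempty
  by_cases hu : ∃ u', H.Adj u u'
  · obtain ⟨u', hu'⟩ := hu
    have hall : ∀ v : W, v ∈ ({u, u'} : Set W) := by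
      intro v
      obtain ⟨p⟩ := hH.preconnected u v
      refine Def1_closed _ ?_ p (Or.inl rfl)
      rintro x (rfl | hx) y hxy
      · exact Or.inr (huniq _ _ _ hxy hu')
      · rw [Set.mem_singleton_iff] at hx
        subst hx
        exact Or.inl (huniq _ _ _ hxy hu'.symm)
    have hsub : (Finset.univ : Finset W) ⊆ {u, u'} := by
      intro v _
      have := hall v
      rw [Finset.mem_insert, Finset.mem_singleton]
      exact this
    have h1 := Finset.card_le_card hsub
    have h2 : ({u, u'} : Finset W).card ≤ 2 := Finset.card_le_two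
    rw [Finset.card_univ] at h1
    omega
  · have hall : ∀ v : W, v ∈ ({u} : Set W) := by
      intro v
      obtain ⟨p⟩ := hH.preconnected u v
      refine Def1_closed _ ?_ p rfl
      rintro x rfl y hxy
      exact absurd ⟨y, hxy⟩ hu
    have hsub : (Finset.univ : Finset W) ⊆ {u} := by
      intro v _
      rw [Finset.mem_singleton]
      exact hall v
    have h1 := Finset.card_le_card hsub
    rw [Finset.card_univ, Finset.card_singleton] at h1
    omega

private theorem Def1_comp {W' : Type*} {G : SimpleGraph V} {H : SimpleGraph W}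
    {H' : SimpleGraph W'} {X : Set V} (g : W' → W) (hg : Function.Injective g)
    (hadj : ∀ p q, H'.Adj p q → H.Adj (g p) (g q)) (h : Model H G X) : Model H' G X := by
  obtain ⟨f, h1, h2, h3, h4⟩ := h
  exact ⟨fun p => f (g p), fun p => h1 _, fun p q hpq => h2 _ _ (fun h => hpq (hg h)),
    fun p => h3 _, fun p q hpq => h4 _ _ (hadj p q hpq)⟩

theorem no_model {G : SimpleGraph V} {H : SimpleGraph W} [Fintype W] (hH : H.Connected)
    (hW : 3 ≤ Fintype.card W) {X : Set V}
    (hX : ∀ v ∈ X, ∀ y ∈ X, ∀ y' ∈ X, G.Adj v y → G.Adj v y' → y = y') : ¬ Model H G X := by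
  rintro ⟨f, h1, h2, h3, h4⟩
  obtain ⟨a, b, c, hbc, hab, hac⟩ := Def1_fork hH hW
  obtain ⟨x, hx, y, hy, hxy⟩ := h4 a b hab
  obtain ⟨x', hx', y', hy', hxy'⟩ := h4 a c hac
  by_cases hxx : x = x'
  · subst hxx
    have h5 := hX x (h1 a hx) y (h1 b hy) y' (h1 c hy') hxy hxy'
    subst h5
    exact Set.disjoint_left.1 (h2 b c hbc) hy hy'
  · obtain ⟨p⟩ := (h3 a).preconnected ⟨x, hx⟩ ⟨x', hx'⟩
    cases p with
    | nil => exact hxx rfl
    | @cons _ v _ h q =>
      have h6 : G.Adj x v.1 := h
      have h5 := hX x (h1 a hx) y (h1 b hy) v.1 (h1 a v.2) hxy h6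
      have h7 : y ∈ f a := by
        rw [h5]
        exact v.2
      exact Set.disjoint_left.1 (h2 a b hab.ne) h7 hy

/-- The join of the star `K_{1,m}` and `H`. -/
def starJoin (m : ℕ) (H : SimpleGraph W) : SimpleGraph ((Fin 1 ⊕ Fin m) ⊕ W) :=
  SimpleGraph.fromRel (fun p q : (Fin 1 ⊕ Fin m) ⊕ W =>
    Sum.elim
      (fun s : Fin 1 ⊕ Fin m =>
        Sum.elim (fun t : Fin 1 ⊕ Fin m => (completeBipartiteGraph (Fin 1) (Fin m)).Adj s t)
          (fun _ : W => True) q)
      (fun x : W => Sum.elim (fun _ : Fin 1 ⊕ Fin m => True) (fun y : W => H.Adj x y) q) p)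

theorem star_model {G : SimpleGraph V} {H : SimpleGraph W} [Fintype W] {m : ℕ} {X : Set V}
    (h : Model (T (Fintype.card W + 1) m) G X) : Model (starJoin m H) G X := by
  let e : W ⊕ Fin 1 ≃ Fin (Fintype.card W + 1) :=
    (Equiv.sumCongr (Fintype.equivFin W) (Equiv.refl (Fin 1))).trans finSumFinEquiv
  let g : (Fin 1 ⊕ Fin m) ⊕ W → Fin (Fintype.card W + 1) ⊕ Fin m := fun p =>
    match p with
    | Sum.inl (Sum.inl i) => Sum.inl (e (Sum.inr i))
    | Sum.inl (Sum.inr j) => Sum.inr j
    | Sum.inr w => Sum.inl (e (Sum.inl w))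
  have hg : Function.Injective g := by
    rintro ((i | j) | w) ((i' | j') | w') h
    · rw [Subsingleton.elim i i']
    · exact absurd h (by simp [g])
    · have h' : e (Sum.inr i) = e (Sum.inl w') := Sum.inl_injective h
      exact absurd (e.injective h') (by simp)
    · exact absurd h (by simp [g])
    · have h' : j = j' := Sum.inr_injective h
      rw [h']
    · exact absurd h (by simp [g])
    · have h' : e (Sum.inl w) = e (Sum.inr i') := Sum.inl_injective h
      exact absurd (e.injective h') (by simp)
    · exact absurd h (by simp [g])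
    · have h' : e (Sum.inl w) = e (Sum.inl w') := Sum.inl_injective h
      rw [Sum.inl_injective (e.injective h')]
  refine Def1_comp g hg ?_ h
  intro p q hpq
  refine ⟨fun h => hpq.ne (hg h), ?_⟩
  rcases p with (i | j) | w
  · exact Or.inl rfl
  · rcases q with (i' | j') | w'
    · exact Or.inr rfl
    · exfalso
      have h1 := (SimpleGraph.fromRel_adj _ _ _).1 hpq
      rcases h1.2 with h2 | h2
      · simp [completeBipartiteGraph] at h2
      · simp [completeBipartiteGraph] at h2
    · exact Or.inr rfl
  · exact Or.inl rfl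

end Pool.Agent.Lib.MP_426cf1_co
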