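import Mathlib

/-!
# Definitions

Graphs `G` on a fixed type `V`; `L : Finset V` is the set of active vertices.
-/

set_option autoImplicit false

namespace Pool.Agent.Lib.MP_426cf1_co

variable {V W : Type*}

open Classical in
/-- The number of neighbours of `v` in `L`. -/
noncomputable def dg (G : SimpleGraph V) (L : Finset V) (v : V) : ℕ :=
  (L.filter fun w => G.Adj v w).card

open Classical in
/-- The number of common neighbours of `x` and `y` in `L`. -/
noncomputable def cm (G : SimpleGraph V) (L : Finset V) (x y : V) : ℕ :=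
  (L.filter fun w => G.Adj x w ∧ G.Adj y w).card

/-- Twice the number of edges inside `L`. -/
noncomputable def e2 (G : SimpleGraph V) (L : Finset V) : ℕ := ∑ v ∈ L, dg G L v

open Classical in
/-- The vertices of `M` without a neighbour in `R`. -/
noncomputable def ud (G : SimpleGraph V) (R M : Finset V) : Finset V :=
  M.filter fun w => ∀ y ∈ R, ¬ G.Adj w y

/-- `H` has a model in `G` with (disjoint, connected) branch sets inside `L`. -/
def Model (H : SimpleGraph W) (G : SimpleGraph V) (L : Set V) : Prop :=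
  ∃ f : W → Set V, (∀ a, f a ⊆ L) ∧ (∀ a b, a ≠ b → Disjoint (f a) (f b)) ∧
    (∀ a, (G.induce (f a)).Connected) ∧ ∀ a b, H.Adj a b → ∃ x ∈ f a, ∃ y ∈ f b, G.Adj x y

/-- The complete graph on `s` vertices joined to `m` pairwise non-adjacent vertices. -/
def T (s m : ℕ) : SimpleGraph (Fin s ⊕ Fin m) where
  Adj p q := p ≠ q ∧ (p.isLeft = true ∨ q.isLeft = true)
  symm := ⟨fun _ _ h => ⟨h.1.symm, h.2.symm⟩⟩
  loopless := ⟨fun _ h => h.1 rfl⟩

/-- Contraction of the edge `x y` onto `x` (to be used on the vertices different from `y`). -/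
def contr (G : SimpleGraph V) (x y : V) : SimpleGraph V where
  Adj u w := u ≠ w ∧ (G.Adj u w ∨ (u = x ∧ G.Adj y w) ∨ (w = x ∧ G.Adj y u))
  symm := ⟨fun _ _ h => ⟨h.1.symm, h.2.elim (fun h => Or.inl h.symm) fun h => Or.inr h.symm⟩⟩
  loopless := ⟨fun _ h => h.1 rfl⟩

/-- `F` stays connected when at most `b` vertices are removed. -/
def Rob (b : ℕ) (G : SimpleGraph V) (F : Finset V) : Prop :=
  ∀ U : Finset V, U.card ≤ b → ∀ x ∈ F, x ∉ U → ∀ y ∈ F, y ∉ U →
    ∃ p : G.Walk x y, ∀ v ∈ p.support, v ∈ F ∧ v ∉ U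

/-- The properties of a minor-minimal dense graph. -/
structure Good (a b : ℕ) (G : SimpleGraph V) (L : Finset V) : Prop where
  big : 2 * a ≤ L.card + 2 * b
  deg : ∀ v ∈ L, a + 1 ≤ dg G L v
  com : ∀ x ∈ L, ∀ y ∈ L, G.Adj x y → a ≤ cm G L x y
  rob : Rob b G L
  sml : e2 G L ≤ 2 * a * L.card

/-- Every walk from `A` to `B` meets `S`. -/
def Sep (G : SimpleGraph V) (A B S : Set V) : Prop :=
  ∀ a ∈ A, ∀ b ∈ B, ∀ p : G.Walk a b, ∃ v ∈ p.support, v ∈ S

/-- There are `k` disjoint walks from `A` to `B`. -/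
def Lk (G : SimpleGraph V) (A B : Set V) (k : ℕ) : Prop :=
  ∃ (x y : Fin k → V) (p : ∀ i, G.Walk (x i) (y i)), (∀ i, x i ∈ A) ∧ (∀ i, y i ∈ B) ∧
    ∀ i j, i ≠ j → ∀ v ∈ (p i).support, v ∉ (p j).support

/-- The bound for the size of a hub. -/
def kp (l : ℕ) : ℕ := 1 + 2112 * l

/-- The numerical conditions on the parameters: `s` hubs, `b` robustness, `a` density, `2 ^ l ≥ 100 s`. -/
structure Par (s l b a : ℕ) : Prop where
  s1 : 1 ≤ s
  l1 : 100 * s ≤ 2 ^ l
  b1 : s * (2 * kp l + 1) ≤ b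
  a1 : 1000 * b ≤ a

end Pool.Agent.Lib.MP_426cf1_co
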