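import Pool.Agent.Lib.MP_426cf1_co.Cnt

/-!
# JOB Dia: short paths in dense connected sets

`S` is connected (any two vertices are joined by a walk inside `S`), every vertex of `S` has at least `d ≥ 1` neighbours in `S` and `|S| ≤ 2 q d`. Then any two vertices of `S` are contained in a connected subset of `S` with at most
`6 q` elements: take the support of a shortest walk.

PROOF. Work in `Γ = G.induce S` (preconnected). Let `x, y ∈ S`, `n = Γ.dist x y`, and let `p` be a walk of length `n` from `x` to `y` (`SimpleGraph.Reachable.exists_walk_length_eq_dist`); for `i ≤ n` its `i`-th vertex `p.getVert i` has distance `i` from `x`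
(at most `i` because of the initial segment, at least `i` because the rest has length `n - i` and `n` is the distance). For `0 ≤ j ≤ n / 3` let `N j` be the set of the neighbours of `p.getVert (3 j)` in `S` together with `p.getVert (3 j)` itself. Its elements have
distance between `3 j - 1` and `3 j + 1` from `x` (`dist_triangle`, adjacent vertices have distance at most one), so the `N j` are disjoint; `|N j| ≥ d + 1`. So `(n / 3 + 1) (d + 1) ≤ |S| ≤ 2 q d`, `n / 3 + 1 ≤ 2 q - 1`
(if `n / 3 + 1 ≥ 2 q` then `(n / 3 + 1) (d + 1) ≥ 2 q d + 2 q > 2 q d`, `q ≥ 1` because `|S| ≥ 1`), `n + 1 ≤ 6 q`. The support of `p` has `n + 1` elements (as a list), map it to `V`.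
-/

set_option autoImplicit false

namespace Pool.Agent.Lib.MP_426cf1_co

variable {V : Type*} [DecidableEq V]

theorem dia {G : SimpleGraph V} {S : Finset V} {q d : ℕ} (hd : 1 ≤ d)
    (hconn : ∀ x ∈ S, ∀ y ∈ S, ∃ p : G.Walk x y, ∀ v ∈ p.support, v ∈ S)
    (hdeg : ∀ v ∈ S, d ≤ dg G S v) (hS : S.card ≤ 2 * q * d) {x y : V} (hx : x ∈ S)
    (hy : y ∈ S) :
    ∃ P : Finset V, x ∈ P ∧ y ∈ P ∧ P ⊆ S ∧ P.card ≤ 6 * q ∧ (G.induce (P : Set V)).Connected := by
  classical
  let Γ : SimpleGraph (S : Set V) := G.induce (S : Set V)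
  have hΓ : Γ.Connected := by
    have : Nonempty (S : Set V) := ⟨⟨x, hx⟩⟩
    refine SimpleGraph.Connected.mk ?_
    rintro ⟨a, ha⟩ ⟨b, hb⟩
    obtain ⟨p, hp⟩ := hconn a ha b hb
    exact ⟨p.induce (S : Set V) hp⟩
  obtain ⟨p, hp⟩ := hΓ.exists_walk_length_eq_dist ⟨x, hx⟩ ⟨y, hy⟩
  generalize hn : Γ.dist ⟨x, hx⟩ ⟨y, hy⟩ = n at hp
  -- distances along the walk
  have hdist : ∀ i, i ≤ n → Γ.dist ⟨x, hx⟩ (p.getVert i) = i := by
    intro i hi
    have h1 := SimpleGraph.dist_le (p.take i)
    have h2 := SimpleGraph.dist_le (p.drop i)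
    rw [SimpleGraph.Walk.take_length, hp] at h1
    rw [SimpleGraph.Walk.drop_length, hp] at h2
    have h3 := hΓ.dist_triangle (u := ⟨x, hx⟩) (v := p.getVert i) (w := ⟨y, hy⟩)
    rw [hn] at h3
    omega
  let δ : V → ℕ := fun v => if h : v ∈ S then Γ.dist ⟨x, hx⟩ ⟨v, h⟩ else 0
  let N : ℕ → Finset V := fun j =>
    insert (p.getVert (3 * j) : V) (S.filter fun w => G.Adj (p.getVert (3 * j) : V) w)
  have hNδ : ∀ j, 3 * j ≤ n → ∀ v ∈ N j, v ∈ S ∧ δ v ≤ 3 * j + 1 ∧ 3 * j ≤ δ v + 1 := by
    intro j hj v hv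
    have h0 := hdist (3 * j) hj
    rcases Finset.mem_insert.1 hv with h | h
    · have hv' : v ∈ S := by
        rw [h]
        exact (p.getVert (3 * j)).2
      have h1 : δ v = 3 * j := by
        show (if h : v ∈ S then Γ.dist ⟨x, hx⟩ ⟨v, h⟩ else 0) = 3 * j
        rw [dif_pos hv', ← h0]
        congr 1
        exact Subtype.ext h
      exact ⟨hv', by omega, by omega⟩
    · obtain ⟨hv', hadj⟩ := Finset.mem_filter.1 h
      have h1 : δ v = Γ.dist ⟨x, hx⟩ ⟨v, hv'⟩ := dif_pos hv'
      have hadj2 : Γ.Adj (p.getVert (3 * j)) ⟨v, hv'⟩ := hadj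
      have h2 : Γ.dist (p.getVert (3 * j)) ⟨v, hv'⟩ = 1 :=
        SimpleGraph.dist_eq_one_iff_adj.2 hadj2
      have h3 : Γ.dist ⟨v, hv'⟩ (p.getVert (3 * j)) = 1 :=
        SimpleGraph.dist_eq_one_iff_adj.2 hadj2.symm
      have h4 := hΓ.dist_triangle (u := ⟨x, hx⟩) (v := p.getVert (3 * j)) (w := ⟨v, hv'⟩)
      have h5 := hΓ.dist_triangle (u := ⟨x, hx⟩) (v := ⟨v, hv'⟩) (w := p.getVert (3 * j))
      rw [h0, h2, ← h1] at h4
      rw [h0, h3, ← h1] at h5
      exact ⟨hv', h4, h5⟩
  have hNcard : ∀ j, d + 1 ≤ (N j).card := by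
    intro j
    have h1 : (p.getVert (3 * j) : V) ∉ S.filter fun w => G.Adj (p.getVert (3 * j) : V) w := by
      intro h
      exact G.loopless.irrefl _ (Finset.mem_filter.1 h).2
    show d + 1 ≤ (insert (p.getVert (3 * j) : V)
      (S.filter fun w => G.Adj (p.getVert (3 * j) : V) w)).card
    rw [Finset.card_insert_of_notMem h1]
    have h2 := hdeg _ (p.getVert (3 * j)).2
    unfold dg at h2
    refine Nat.succ_le_succ (h2.trans (le_of_eq ?_))
    congr 1
  have hdisj : ∀ j ∈ Finset.range (n / 3 + 1), ∀ k ∈ Finset.range (n / 3 + 1), j ≠ k →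
      Disjoint (N j) (N k) := by
    intro j hj k hk hjk
    rw [Finset.mem_range] at hj hk
    rw [Finset.disjoint_left]
    intro v hv1 hv2
    have h1 := hNδ j (by omega) v hv1
    have h2 := hNδ k (by omega) v hv2
    omega
  have hbU : ((Finset.range (n / 3 + 1)).biUnion N).card ≤ S.card := by
    refine Finset.card_le_card fun v hv => ?_
    obtain ⟨j, hj, hvj⟩ := Finset.mem_biUnion.1 hv
    rw [Finset.mem_range] at hj
    exact (hNδ j (by omega) v hvj).1
  rw [Finset.card_biUnion hdisj] at hbU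
  have h6 : (n / 3 + 1) * (d + 1) ≤ S.card := by
    refine le_trans ?_ hbU
    calc (n / 3 + 1) * (d + 1) = ∑ _j ∈ Finset.range (n / 3 + 1), (d + 1) := by
          rw [Finset.sum_const, Finset.card_range, smul_eq_mul]
      _ ≤ _ := Finset.sum_le_sum fun j _ => hNcard j
  have hS1 : 1 ≤ S.card := Finset.card_pos.2 ⟨x, hx⟩
  have hq : 1 ≤ q := by
    rcases Nat.eq_zero_or_pos q with h | h
    · rw [h] at hS
      omega
    · exact h
  have hm : n / 3 + 1 < 2 * q := by
    by_contra hcon
    push Not at hcon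
    have h7 : 2 * q * (d + 1) ≤ (n / 3 + 1) * (d + 1) := Nat.mul_le_mul_right _ hcon
    have h8 : 2 * q * (d + 1) = 2 * q * d + 2 * q := by ring
    omega
  let f : Γ →g G := (SimpleGraph.Embedding.induce (S : Set V)).toHom
  let p' : G.Walk x y := p.map f
  have hsupp : ∀ v, v ∈ p'.support → v ∈ S := by
    intro v hv
    have h9 : v ∈ (p.map f).support := hv
    rw [SimpleGraph.Walk.support_map, List.mem_map] at h9
    obtain ⟨u, -, rfl⟩ := h9
    exact u.2
  refine ⟨p'.support.toFinset, ?_, ?_, ?_, ?_, ?_⟩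
  · rw [List.mem_toFinset]
    exact p'.start_mem_support
  · rw [List.mem_toFinset]
    exact p'.end_mem_support
  · intro v hv
    rw [List.mem_toFinset] at hv
    exact hsupp v hv
  · refine (List.toFinset_card_le _).trans ?_
    rw [SimpleGraph.Walk.length_support]
    have h10 : p'.length = n := (SimpleGraph.Walk.length_map _ _).trans hp
    omega
  · have h11 := p'.connected_induce_support
    have h12 : ((p'.support.toFinset : Finset V) : Set V) = {v | v ∈ p'.support} := by
      ext v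
      simp
    rw [h12]
    exact h11

end Pool.Agent.Lib.MP_426cf1_co
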