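import Pool.Agent.Lib.MP_426cf1_co.Cnt

/-!
# JOB Dom: greedy domination

Every `w ∈ M` has at least `d ≥ 1` neighbours in `S`, `|S| ≤ 2 q d`. Then for every `K` there is `Y ⊆ S` with `|Y| ≤ K` such that the set `ud G Y M` of the vertices of `M` without a neighbour in `Y` has
`(2 q) ^ K * |ud G Y M| ≤ (2 q - 1) ^ K * |M|`.

PROOF. Induction on `K`; `K = 0`: `Y = ∅`, `ud G ∅ M = M`. Step (`dom_step`): let `N = ud G Y M`. There is `y ∈ S` with `|N| ≤ 2 q * |{w ∈ N : G.Adj w y}|`, i.e. `|N| ≤ 2 q * dg G N y`: if `N` is empty take any... if `N = ∅` keep `Y`. Otherwise, double counting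
(`Finset.sum_card_bipartiteAbove_eq_sum_card_bipartiteBelow` or `Finset.sum_comm` with `card_filter`): `∑ y ∈ S, dg G N y = ∑ w ∈ N, dg G S w ≥ d |N|`. If `2 q * dg G N y < |N|` for all `y ∈ S` then
`2 q * d * |N| ≤ ∑ y ∈ S, 2 q * dg G N y < |S| * |N| ≤ 2 q d |N|` (`S` is not empty since `N` is not empty and `d ≥ 1`), contradiction. With `Y' = insert y Y`: `ud G Y' M = N \ {w : G.Adj w y}`, so
`2 q |ud G Y' M| = 2 q |N| - 2 q * dg G N y ≤ (2 q - 1) |N|`.

`dom_num`: `31 ^ 22 * 2 ≤ 32 ^ 22` (`norm_num`), so `31 ^ (22 l) * 2 ^ l ≤ 32 ^ (22 l)`.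
`dom'`: `q = 16`, `K = 22 l`: `32 ^ K * 2 ^ l * u ≤ 31 ^ K * 2 ^ l * |M| ≤ 32 ^ K * |M|`, cancel.
-/

set_option autoImplicit false

namespace Pool.Agent.Lib.MP_426cf1_co

variable {V : Type*} [DecidableEq V]

omit [DecidableEq V] in
private theorem Dom_count (G : SimpleGraph V) (S N : Finset V) :
    ∑ y ∈ S, dg G N y = ∑ w ∈ N, dg G S w := by
  classical
  unfold dg
  simp only [Finset.card_filter]
  rw [Finset.sum_comm]
  refine Finset.sum_congr rfl fun w _ => Finset.sum_congr rfl fun y _ => ?_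
  rw [G.adj_comm]

open Classical in
private theorem Dom_insert (G : SimpleGraph V) (Y M : Finset V) (y : V) :
    (ud G (insert y Y) M).card + dg G (ud G Y M) y = (ud G Y M).card := by
  unfold dg
  have h1 : ud G (insert y Y) M = (ud G Y M).filter fun w => ¬ G.Adj y w := by
    unfold ud
    rw [Finset.filter_filter]
    refine Finset.filter_congr fun w _ => ?_
    rw [Finset.forall_mem_insert, G.adj_comm y w, and_comm]
  rw [h1, add_comm]
  exact Finset.card_filter_add_card_filter_not _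

private theorem Dom_step {G : SimpleGraph V} {S M : Finset V} {q d : ℕ} (hd : 1 ≤ d)
    (hdeg : ∀ w ∈ M, d ≤ dg G S w) (hS : S.card ≤ 2 * q * d) (Y : Finset V) (hY : Y ⊆ S) :
    ∃ Y' ⊆ S, Y'.card ≤ Y.card + 1 ∧
      2 * q * (ud G Y' M).card ≤ (2 * q - 1) * (ud G Y M).card := by
  classical
  by_cases hN : (ud G Y M).card = 0
  · exact ⟨Y, hY, Nat.le_succ _, by rw [hN, mul_zero, mul_zero]⟩
  have hNM : ∀ w ∈ ud G Y M, w ∈ M := fun w hw => (Finset.mem_filter.1 hw).1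
  have key : ∃ y ∈ S, (ud G Y M).card ≤ 2 * q * dg G (ud G Y M) y := by
    by_contra hcon
    push Not at hcon
    have h1 : d * (ud G Y M).card ≤ ∑ y ∈ S, dg G (ud G Y M) y := by
      rw [Dom_count, mul_comm, ← smul_eq_mul]
      exact Finset.card_nsmul_le_sum _ _ _ fun w hw => hdeg w (hNM w hw)
    have hne : S.Nonempty := by
      obtain ⟨w, hw⟩ := Finset.card_pos.1 (Nat.pos_of_ne_zero hN)
      have h2 : 0 < dg G S w := lt_of_lt_of_le hd (hdeg w (hNM w hw))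
      obtain ⟨y, hy⟩ := Finset.card_pos.1 h2
      exact ⟨y, (Finset.mem_filter.1 hy).1⟩
    have h3 : ∑ y ∈ S, 2 * q * dg G (ud G Y M) y < ∑ _y ∈ S, (ud G Y M).card :=
      Finset.sum_lt_sum_of_nonempty hne hcon
    rw [← Finset.mul_sum, Finset.sum_const, smul_eq_mul] at h3
    have h4 := Nat.mul_le_mul_left (2 * q) h1
    have h5 := Nat.mul_le_mul_right (ud G Y M).card hS
    have h6 : 2 * q * d * (ud G Y M).card = 2 * q * (d * (ud G Y M).card) := by ring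
    omega
  obtain ⟨y, hyS, hy⟩ := key
  refine ⟨insert y Y, Finset.insert_subset hyS hY, Finset.card_insert_le _ _, ?_⟩
  have h7 := Dom_insert G Y M y
  have h8 : 2 * q * (ud G (insert y Y) M).card + 2 * q * dg G (ud G Y M) y
      = 2 * q * (ud G Y M).card := by
    rw [← mul_add, h7]
  rw [Nat.sub_mul, one_mul]
  omega

theorem dom {G : SimpleGraph V} {S M : Finset V} {q d : ℕ} (hd : 1 ≤ d)
    (hdeg : ∀ w ∈ M, d ≤ dg G S w) (hS : S.card ≤ 2 * q * d) (K : ℕ) :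
    ∃ Y ⊆ S, Y.card ≤ K ∧ (2 * q) ^ K * (ud G Y M).card ≤ (2 * q - 1) ^ K * M.card := by
  classical
  induction K with
  | zero =>
    refine ⟨∅, Finset.empty_subset _, Nat.le_refl 0, ?_⟩
    rw [pow_zero, pow_zero, one_mul, one_mul]
    exact Finset.card_le_card (Finset.filter_subset _ _)
  | succ K ih =>
    obtain ⟨Y, hYS, hYK, hY⟩ := ih
    obtain ⟨Y', hYS', hYK', hY'⟩ := Dom_step hd hdeg hS Y hYS
    refine ⟨Y', hYS', by omega, ?_⟩
    calc (2 * q) ^ (K + 1) * (ud G Y' M).card = (2 * q) ^ K * (2 * q * (ud G Y' M).card) := by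
          rw [pow_succ]
          ring
      _ ≤ (2 * q) ^ K * ((2 * q - 1) * (ud G Y M).card) := Nat.mul_le_mul_left _ hY'
      _ = (2 * q - 1) * ((2 * q) ^ K * (ud G Y M).card) := by ring
      _ ≤ (2 * q - 1) * ((2 * q - 1) ^ K * M.card) := Nat.mul_le_mul_left _ hY
      _ = (2 * q - 1) ^ (K + 1) * M.card := by
          rw [pow_succ]
          ring

theorem dom' {G : SimpleGraph V} {S M : Finset V} {d : ℕ} (hd : 1 ≤ d)
    (hdeg : ∀ w ∈ M, d ≤ dg G S w) (hS : S.card ≤ 32 * d) (l : ℕ) :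
    ∃ Y ⊆ S, Y.card ≤ 22 * l ∧ 2 ^ l * (ud G Y M).card ≤ M.card := by
  obtain ⟨Y, hYS, hYK, hY⟩ := dom (q := 16) hd hdeg hS (22 * l)
  refine ⟨Y, hYS, hYK, ?_⟩
  have h0 : (31 : ℕ) ^ 22 * 2 ≤ 32 ^ 22 := by norm_num
  have h1 : (31 : ℕ) ^ (22 * l) * 2 ^ l ≤ 32 ^ (22 * l) := by
    rw [pow_mul, pow_mul, ← mul_pow]
    exact Nat.pow_le_pow_left h0 l
  have hY2 : 32 ^ (22 * l) * (ud G Y M).card ≤ 31 ^ (22 * l) * M.card := hY
  have h2 : 32 ^ (22 * l) * (2 ^ l * (ud G Y M).card) ≤ 32 ^ (22 * l) * M.card := by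
    calc 32 ^ (22 * l) * (2 ^ l * (ud G Y M).card)
        = 2 ^ l * (32 ^ (22 * l) * (ud G Y M).card) := by ring
      _ ≤ 2 ^ l * (31 ^ (22 * l) * M.card) := Nat.mul_le_mul_left _ hY2
      _ = 31 ^ (22 * l) * 2 ^ l * M.card := by ring
      _ ≤ 32 ^ (22 * l) * M.card := Nat.mul_le_mul_right _ h1
  exact Nat.le_of_mul_le_mul_left h2 (pow_pos (by norm_num) _)

end Pool.Agent.Lib.MP_426cf1_co
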