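import Pool.Agent.Lib.MP_426cf1_co.Cnt

/-!
# JOB Spot: robust dense sets in neighbourhoods

`split`: `D` is not robust: there are `U` with `|U| ≤ b` and `x, y ∈ D \ U` such that no walk from `x` to `y` stays in `D \ U`. Let `A` be the set of vertices of `D \ U` which can be reached from `x` by a walk inside `D \ U`, `B = (D \ U) \ A`. `x ∈ A`, `y ∈ B`, there are no edges between `A` and `B`. So for `v ∈ A` the neighbours of `v` in
`D` are in `A ∪ U`, `dg G D v ≤ dg G A v + b`; similarly for `B`. `|A| + |B| ≤ |D|`, so one of them has at most `|D| / 2` elements.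

`extract`: if `D` is robust take `F = D`. Otherwise apply `split` to get `D₁`, `2 |D₁| ≤ |D| ≤ 4 a + 1`, degrees `≥ a + 1 - b`; if `D₁` is not robust `D₂`, `2 |D₂| ≤ |D₁|`, degrees `≥ a + 1 - 2 b`; if `D₂` is not robust `D₃`, `2 |D₃| ≤ |D₂|`, so `8 |D₃| ≤ 4 a + 1`, but
`|D₃| ≥ a + 1 - 3 b + 1` (degrees in `D₃` are at least `a + 1 - 3 b`, `dg_lt_card`), a contradiction as `1000 b ≤ a`.
`F.card + 2 b ≥ a + 1`: `dg_lt_card` for any vertex of `F`.

`spot`: `D = {v} ∪ {w ∈ L : G.Adj v w}`; `|D| = dg G L v + 1 ≤ 4 a + 1`. Degrees in `D`: `v` has `dg G L v ≥ a + 1` neighbours in `D`; a neighbour `w` of `v` is adjacent to `v` and to the `cm G L v w ≥ a` common neighbours.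
-/

set_option autoImplicit false

namespace Pool.Agent.Lib.MP_426cf1_co

variable {V : Type*} [DecidableEq V]

theorem split {G : SimpleGraph V} {D : Finset V} {b d : ℕ} (hD : ¬ Rob b G D)
    (hdeg : ∀ v ∈ D, d ≤ dg G D v) :
    ∃ D' ⊆ D, D'.Nonempty ∧ 2 * D'.card ≤ D.card ∧ ∀ v ∈ D', d ≤ dg G D' v + b := by
  classical
  unfold Rob at hD
  push Not at hD
  obtain ⟨U, hU, x, hx, hxU, y, hy, hyU, hw⟩ := hD
  set R : V → Prop := fun v => ∃ p : G.Walk x v, ∀ w ∈ p.support, w ∈ D ∧ w ∉ U with hR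
  set A := D.filter fun v => v ∉ U ∧ R v with hA
  set B := D.filter fun v => v ∉ U ∧ ¬ R v with hB
  have hstep : ∀ v w, R v → G.Adj v w → w ∈ D → w ∉ U → R w := by
    rintro v w ⟨p, hp⟩ hvw hwD hwU
    refine ⟨p.concat hvw, fun z hz => ?_⟩
    rw [SimpleGraph.Walk.support_concat] at hz
    simp only [List.mem_append, List.mem_singleton] at hz
    rcases hz with hz | rfl
    · exact hp z hz
    · exact ⟨hwD, hwU⟩
  have hxR : R x := ⟨SimpleGraph.Walk.nil, fun w hw => by
    simp only [SimpleGraph.Walk.support_nil, List.mem_singleton] at hw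
    subst hw
    exact ⟨hx, hxU⟩⟩
  have hyR : ¬ R y := by
    rintro ⟨p, hp⟩
    obtain ⟨v, hv, hv'⟩ := hw p
    exact (hp v hv).2 (hv' (hp v hv).1)
  have hxA : x ∈ A := Finset.mem_filter.2 ⟨hx, hxU, hxR⟩
  have hyB : y ∈ B := Finset.mem_filter.2 ⟨hy, hyU, hyR⟩
  have hdis : Disjoint A B := by
    rw [Finset.disjoint_left]
    intro v hvA hvB
    exact (Finset.mem_filter.1 hvB).2.2 (Finset.mem_filter.1 hvA).2.2
  have hcard : A.card + B.card ≤ D.card := by
    rw [← Finset.card_union_of_disjoint hdis]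
    exact Finset.card_le_card (Finset.union_subset (Finset.filter_subset _ _) (Finset.filter_subset _ _))
  have hdegA : ∀ v ∈ A, d ≤ dg G A v + b := by
    intro v hv
    obtain ⟨hvD, hvU, hvR⟩ := Finset.mem_filter.1 hv
    refine (hdeg v hvD).trans ?_
    refine le_trans ?_ (Nat.add_le_add_left hU _)
    unfold dg
    refine le_trans (Finset.card_le_card ?_) (Finset.card_union_le _ _)
    intro w hw
    obtain ⟨hwD, hvw⟩ := Finset.mem_filter.1 hw
    by_cases hwU : w ∈ U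
    · exact Finset.mem_union_right _ hwU
    · exact Finset.mem_union_left _ (Finset.mem_filter.2
        ⟨Finset.mem_filter.2 ⟨hwD, hwU, hstep v w hvR hvw hwD hwU⟩, hvw⟩)
  have hdegB : ∀ v ∈ B, d ≤ dg G B v + b := by
    intro v hv
    obtain ⟨hvD, hvU, hvR⟩ := Finset.mem_filter.1 hv
    refine (hdeg v hvD).trans ?_
    refine le_trans ?_ (Nat.add_le_add_left hU _)
    unfold dg
    refine le_trans (Finset.card_le_card ?_) (Finset.card_union_le _ _)
    intro w hw
    obtain ⟨hwD, hvw⟩ := Finset.mem_filter.1 hw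
    by_cases hwU : w ∈ U
    · exact Finset.mem_union_right _ hwU
    · refine Finset.mem_union_left _ (Finset.mem_filter.2
        ⟨Finset.mem_filter.2 ⟨hwD, hwU, fun hwR => hvR (hstep w v hwR hvw.symm hvD hvU)⟩, hvw⟩)
  by_cases hle : 2 * A.card ≤ D.card
  · exact ⟨A, Finset.filter_subset _ _, ⟨x, hxA⟩, hle, hdegA⟩
  · refine ⟨B, Finset.filter_subset _ _, ⟨y, hyB⟩, by omega, hdegB⟩

theorem extract {G : SimpleGraph V} {D : Finset V} {a b : ℕ} (hab : 1000 * b ≤ a) (ha : 1000 ≤ a)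
    (hne : D.Nonempty) (hD : D.card ≤ 4 * a + 1) (hdeg : ∀ v ∈ D, a + 1 ≤ dg G D v) :
    ∃ F ⊆ D, Rob b G F ∧ a + 1 ≤ F.card + 2 * b ∧ ∀ v ∈ F, a ≤ dg G F v + 2 * b := by
  have fin : ∀ (F : Finset V) (t : ℕ), t ≤ 2 * b → F ⊆ D → F.Nonempty → (∀ v ∈ F, a + 1 ≤ dg G F v + t) →
      Rob b G F → ∃ F ⊆ D, Rob b G F ∧ a + 1 ≤ F.card + 2 * b ∧ ∀ v ∈ F, a ≤ dg G F v + 2 * b := by
    intro F t ht hF hFne hdF hR
    refine ⟨F, hF, hR, ?_, fun v hv => ?_⟩
    · obtain ⟨v, hv⟩ := hFne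
      have h1 := hdF v hv
      have h2 := dg_lt_card (G := G) hv
      omega
    · have h1 := hdF v hv
      omega
  by_cases h0 : Rob b G D
  · exact fin D 0 (by omega) (Finset.Subset.refl _) hne (fun v hv => by have := hdeg v hv; omega) h0
  obtain ⟨D₁, hD₁, hne₁, hc₁, hd₁⟩ := split h0 hdeg
  by_cases h1 : Rob b G D₁
  · exact fin D₁ b (by omega) hD₁ hne₁ hd₁ h1
  obtain ⟨D₂, hD₂, hne₂, hc₂, hd₂⟩ := split (d := a + 1 - b) h1 (fun v hv => by have := hd₁ v hv; omega)
  by_cases h2 : Rob b G D₂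
  · exact fin D₂ (2 * b) (by omega) (hD₂.trans hD₁) hne₂ (fun v hv => by have := hd₂ v hv; omega) h2
  obtain ⟨D₃, hD₃, hne₃, hc₃, hd₃⟩ := split (d := a + 1 - 2 * b) h2 (fun v hv => by have := hd₂ v hv; omega)
  exfalso
  obtain ⟨v, hv⟩ := hne₃
  have h3 := hd₃ v hv
  have h4 := dg_lt_card (G := G) hv
  omega

theorem spot {G : SimpleGraph V} {L : Finset V} {a b : ℕ} (hab : 1000 * b ≤ a) (ha : 1000 ≤ a)
    (hG : Good a b G L) {v : V} (hv : v ∈ L) (hd : dg G L v ≤ 4 * a) :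
    ∃ F ⊆ L, (∀ w ∈ F, w = v ∨ G.Adj v w) ∧ F.card ≤ 4 * a + 1 ∧ Rob b G F ∧
      a + 1 ≤ F.card + 2 * b ∧ ∀ w ∈ F, a ≤ dg G F w + 2 * b := by
  classical
  set N := L.filter fun w => G.Adj v w with hN
  have hNc : N.card = dg G L v := by
    unfold dg
    rw [hN]
  have hvN : v ∉ N := by
    intro h
    exact G.loopless.irrefl v (Finset.mem_filter.1 h).2
  set D := insert v N with hD
  have hDc : D.card = dg G L v + 1 := by
    rw [hD, Finset.card_insert_of_notMem hvN, hNc]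
  have hDL : D ⊆ L := by
    intro w hw
    rcases Finset.mem_insert.1 hw with rfl | hw
    · exact hv
    · exact (Finset.mem_filter.1 hw).1
  have hDadj : ∀ w ∈ D, w = v ∨ G.Adj v w := by
    intro w hw
    rcases Finset.mem_insert.1 hw with rfl | hw
    · exact Or.inl rfl
    · exact Or.inr (Finset.mem_filter.1 hw).2
  have hdeg : ∀ w ∈ D, a + 1 ≤ dg G D w := by
    intro w hw
    rcases Finset.mem_insert.1 hw with rfl | hw
    · refine (hG.deg w hv).trans ?_
      rw [← hNc]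
      unfold dg
      refine Finset.card_le_card ?_
      intro z hz
      exact Finset.mem_filter.2 ⟨Finset.mem_insert_of_mem hz, (Finset.mem_filter.1 hz).2⟩
    · obtain ⟨hwL, hvw⟩ := Finset.mem_filter.1 hw
      have h1 := hG.com v hv w hwL hvw
      have h2 : cm G L v w + 1 ≤ dg G D w := by
        unfold cm dg
        rw [← Finset.card_insert_of_notMem (a := v)]
        · refine Finset.card_le_card ?_
          intro z hz
          rcases Finset.mem_insert.1 hz with rfl | hz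
          · exact Finset.mem_filter.2 ⟨Finset.mem_insert_self _ _, hvw.symm⟩
          · obtain ⟨hzL, hvz, hwz⟩ := Finset.mem_filter.1 hz
            exact Finset.mem_filter.2 ⟨Finset.mem_insert_of_mem (Finset.mem_filter.2 ⟨hzL, hvz⟩), hwz⟩
        · intro h
          exact G.loopless.irrefl v (Finset.mem_filter.1 h).2.1
      omega
  have hDc4 : D.card ≤ 4 * a + 1 := by omega
  obtain ⟨F, hF, hR, hc, hdF⟩ := extract hab ha ⟨v, Finset.mem_insert_self _ _⟩ hDc4 hdeg
  exact ⟨F, hF.trans hDL, fun w hw => hDadj w (hF hw), le_trans (Finset.card_le_card hF) hDc4, hR, hc, hdF⟩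

end Pool.Agent.Lib.MP_426cf1_co
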