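import Pool.Agent.Lib.MP_426cf1_co.Red
import Pool.Agent.Lib.MP_426cf1_co.Spot
import Pool.Agent.Lib.MP_426cf1_co.CaseA
import Pool.Agent.Lib.MP_426cf1_co.CaseB

/-!
# JOB Ext: the extremal theorem

`many_small`: the set `Sm = {v ∈ L : dg G L v ≤ 4 a}` has `2 |Sm| ≥ |L|`: `∑ v ∈ L, dg ≥ (4 a + 1) |L \ Sm|` and `e2 G L ≤ 2 a |L|` (`sml`).

`good_model`: let `β = a / 4 + 1` (so `16 β ≥ 4 a + 4`, `4 β ≤ a + 4`, `2 b ≤ β`). If `|L| ≤ 12 a` use `case_small`. Otherwise choose for every `v ∈ Sm` a set `F v` by `spot`; degrees inside are `≥ a - 2 b ≥ β`, `|F v| ≤ 4 a + 1 ≤ 16 β`.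
* If there are `v, v' ∈ Sm` (maybe equal) with `10 |F v ∪ F v'| ≥ 17 a`: `two_sets`: `100 (s + m) + 200 s * kp l + |F| + |F'| ≤ 100 b + 150 a + 100 b + 8 a + 2 ≤ 170 a` (`s + s * kp l ≤ b`, `2 s * kp l ≤ b`).
* Otherwise fix `v₀ ∈ Sm` (`Sm` is not empty), `F = F v₀`, `M = Sm \ F`. For `w ∈ M`: `|F w ∩ F| = |F w| + |F| - |F w ∪ F| ≥ 2 (a + 1 - 2 b) - 17 a / 10`, and the elements of `F w` are `w` or neighbours of `w`, `w ∉ F`, so `dg G F w ≥ |F w ∩ F| ≥ 3 a / 10 - 4 b ≥ β`
  (`1000 b ≤ a`, `b ≥ 1`). `|M| ≥ |L| / 2 - (4 a + 1) ≥ 2 a - 1`. Use `one_set`: `100 (s + m + s * kp l) ≤ 100 b + 150 a ≤ 99 (2 a - 1)`.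

`ext`: `red` with `good_model`.
-/

set_option autoImplicit false

namespace Pool.Agent.Lib.MP_426cf1_co

variable {V : Type*} [DecidableEq V]

open Classical in
theorem many_small {G : SimpleGraph V} {L : Finset V} {a b : ℕ} (hG : Good a b G L) :
    L.card ≤ 2 * (L.filter fun v => dg G L v ≤ 4 * a).card := by
  have h1 := Finset.card_filter_add_card_filter_not (s := L) (fun v => dg G L v ≤ 4 * a)
  set A := (L.filter fun v => dg G L v ≤ 4 * a).card with hA
  set R := (L.filter fun v => ¬ dg G L v ≤ 4 * a) with hR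
  have h2 : (4 * a + 1) * R.card ≤ e2 G L := by
    calc (4 * a + 1) * R.card = ∑ v ∈ R, (4 * a + 1) := by
          rw [Finset.sum_const, smul_eq_mul, mul_comm]
      _ ≤ ∑ v ∈ R, dg G L v := by
          refine Finset.sum_le_sum fun v hv => ?_
          have := (Finset.mem_filter.1 hv).2
          omega
      _ ≤ e2 G L := Finset.sum_le_sum_of_subset (Finset.filter_subset _ _)
  have h3 := h2.trans hG.sml
  by_contra hc
  push Not at hc
  have h4 : L.card + 1 ≤ 2 * R.card := by omega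
  have h5 : 2 * a * (L.card + 1) ≤ 2 * a * (2 * R.card) := Nat.mul_le_mul_left _ h4
  have h6 : 1 ≤ R.card := by omega
  have h7 : (4 * a + 1) * R.card = 2 * a * (2 * R.card) + R.card := by ring
  have h8 : 2 * a * (L.card + 1) = 2 * a * L.card + 2 * a := by ring
  omega

theorem good_model [Finite V] {G : SimpleGraph V} {L : Finset V} {s l b a m : ℕ}
    (hp : Par s l b a) (hm : 2 * m ≤ 3 * a) (hG : Good a b G L) : Model (T s m) G (L : Set V) := by
  classical
  have hs1 := hp.s1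
  have ha1 := hp.a1
  have hb1 := hp.b1
  have hb' : s + 2 * (s * kp l) ≤ b := by
    have : s * (2 * kp l + 1) = s + 2 * (s * kp l) := by ring
    omega
  have hb : 1 ≤ b := by omega
  by_cases hL : L.card ≤ 12 * a
  · exact case_small hp hm hG hL
  push Not at hL
  have hms := many_small hG
  set Sm := L.filter fun v => dg G L v ≤ 4 * a with hSm
  have hsp : ∀ v ∈ Sm, ∃ F ⊆ L, (∀ w ∈ F, w = v ∨ G.Adj v w) ∧ F.card ≤ 4 * a + 1 ∧ Rob b G F ∧
      a + 1 ≤ F.card + 2 * b ∧ ∀ w ∈ F, a ≤ dg G F w + 2 * b := by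
    intro v hv
    obtain ⟨h1, h2⟩ := Finset.mem_filter.1 hv
    exact spot (by omega) (by omega) hG h1 h2
  choose! F hFL hFv hFc hFr hFb hFd using hsp
  by_cases hcase : ∃ v ∈ Sm, ∃ v' ∈ Sm, 17 * a ≤ 10 * (F v ∪ F v').card
  · obtain ⟨v, hv, v', hv', h17⟩ := hcase
    have hne : ∀ u ∈ Sm, (F u).Nonempty := fun u hu => by
      rw [← Finset.card_pos]
      have := hFb u hu
      omega
    have hdeg : ∀ u ∈ Sm, ∀ w ∈ F u, a / 4 + 1 ≤ dg G (F u) w := fun u hu w hw => by
      have := hFd u hu w hw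
      omega
    have hcc : ∀ u ∈ Sm, (F u).card ≤ 16 * (a / 4 + 1) := fun u hu => by
      have := hFc u hu
      omega
    refine two_sets (β := a / 4 + 1) hs1 hp.l1 hb1 (by omega) hG.rob (hFL v hv) (hFL v' hv')
      (hFr v hv) (hFr v' hv') (hne v hv) (hne v' hv') (hdeg v hv) (hdeg v' hv') (hcc v hv)
      (hcc v' hv') ?_
    have h1 := hFc v hv
    have h2 := hFc v' hv'
    omega
  · push Not at hcase
    have hSne : Sm.Nonempty := by
      rw [← Finset.card_pos]
      omega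
    obtain ⟨v₀, hv₀⟩ := hSne
    refine one_set (β := a / 4 + 1) (F := F v₀) (M := Sm \ F v₀) hs1 hp.l1 hb1 (by omega)
      (hFL v₀ hv₀) ?_ (hFr v₀ hv₀) ?_ ?_ ?_ ?_ ?_
    · exact Finset.sdiff_subset.trans (Finset.filter_subset _ _)
    · rw [← Finset.card_pos]
      have := hFb v₀ hv₀
      omega
    · intro w hw
      have := hFd v₀ hv₀ w hw
      omega
    · intro w hw
      obtain ⟨hw1, hw2⟩ := Finset.mem_sdiff.1 hw
      have h1 := hcase w hw1 v₀ hv₀
      have h2 := Finset.card_union_add_card_inter (F w) (F v₀)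
      have h3 := hFb w hw1
      have h4 := hFb v₀ hv₀
      have h5 : (F w ∩ F v₀).card ≤ dg G (F v₀) w := by
        unfold dg
        refine Finset.card_le_card fun u hu => ?_
        obtain ⟨hu1, hu2⟩ := Finset.mem_inter.1 hu
        rw [Finset.mem_filter]
        refine ⟨hu2, ?_⟩
        rcases hFv w hw1 u hu1 with h | h
        · exact absurd (h ▸ hu2) hw2
        · exact h
      omega
    · have := hFc v₀ hv₀
      omega
    · have h1 := Finset.le_card_sdiff (F v₀) Sm
      have h2 := hFc v₀ hv₀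
      omega

/-- The extremal theorem: `|E(G)| ≥ a |G|` gives `K_s` joined to `m` independent vertices as a minor, `m ≤ 3 a / 2`. -/
theorem ext_minor [Finite V] (G : SimpleGraph V) (L : Finset V) {s l b a m : ℕ} (hp : Par s l b a)
    (hm : 2 * m ≤ 3 * a) (hne : L.Nonempty) (h : 2 * a * L.card ≤ e2 G L) :
    Model (T s m) G (L : Set V) := by
  have hs1 := hp.s1
  have ha1 := hp.a1
  have hb1 := hp.b1
  have hb : 1 ≤ b := by
    have : s * (2 * kp l + 1) = s + 2 * (s * kp l) := by ring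
    omega
  refine red a b hb (by omega) (fun G L hG => good_model hp hm hG) G L ?_ (by omega)
  have h1 := e2_le G L
  have h2 : 1 ≤ L.card := hne.card_pos
  have h3 : (2 * a + 1) * L.card ≤ L.card * L.card := by
    calc (2 * a + 1) * L.card = 2 * a * L.card + L.card := by ring
      _ ≤ e2 G L + L.card := by omega
      _ ≤ L.card * L.card := h1
  have h4 := Nat.le_of_mul_le_mul_right h3 h2
  omega

end Pool.Agent.Lib.MP_426cf1_co
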