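import Pool.Agent.Lib.MP_426cf1_co.Ext
import Pool.Agent.Lib.MP_426cf1_co.Col
import Pool.Agent.Lib.MP_426cf1_co.Def1

/-!
# The theorem
-/

set_option autoImplicit false

namespace Pool.Agent.Lib.MP_426cf1_co

/-- the parameters -/
theorem par_exists {h r : ℕ} (hh : 3 ≤ h) (hr : 10 ^ 8 * (h * Nat.log 2 h) ≤ r) :
    ∃ l b, Par (h + 1) l b (2 * (r + 1) / 3) := by
  set g := Nat.log 2 h with hg
  have hg1 : 1 ≤ g := Nat.log_pos (by norm_num) (by omega)
  have hgh : h < 2 ^ (g + 1) := Nat.lt_pow_succ_log_self (by norm_num) h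
  refine ⟨g + 9, (h + 1) * (2 * kp (g + 9) + 1), ⟨by omega, ?_, le_rfl, ?_⟩⟩
  · have h1 : 2 ^ (g + 9) = 256 * 2 ^ (g + 1) := by
      rw [show g + 9 = 8 + (g + 1) by ring, pow_add]
      norm_num
    rw [h1]
    omega
  · rw [Nat.le_div_iff_mul_le (by norm_num)]
    have h2 : (h + 1) * (2 * kp (g + 9) + 1) = (h + 1) * (4224 * g + 38019) := by
      unfold kp
      ring
    rw [h2]
    have h3 : 4224 * g + 38019 ≤ 42243 * g := by omega
    have h4 : (h + 1) * 3 ≤ 4 * h := by omega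
    have h5 : (h + 1) * (4224 * g + 38019) * 3 ≤ 4 * 42243 * (h * g) := by
      calc (h + 1) * (4224 * g + 38019) * 3 = (h + 1) * 3 * (4224 * g + 38019) := by ring
        _ ≤ 4 * h * (42243 * g) := Nat.mul_le_mul h4 h3
        _ = 4 * 42243 * (h * g) := by ring
    have h6 : 10 ^ 8 * (h * g) ≤ r := hr
    calc 1000 * ((h + 1) * (4224 * g + 38019)) * 3
        = 1000 * ((h + 1) * (4224 * g + 38019) * 3) := by ring
      _ ≤ 1000 * (4 * 42243 * (h * g)) := Nat.mul_le_mul_left _ h5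
      _ ≤ 2 * (10 ^ 8 * (h * g)) := by
        have h7 : 1000 * (4 * 42243 * (h * g)) = 168972000 * (h * g) := by ring
        have h8 : 2 * (10 ^ 8 * (h * g)) = 200000000 * (h * g) := by ring
        rw [h7, h8]
        exact Nat.mul_le_mul_right _ (by norm_num)
      _ ≤ 2 * (r + 1) := Nat.mul_le_mul_left _ (h6.trans (Nat.le_succ r))

theorem main {r : ℕ} {W : Type*} [Fintype W] (H : SimpleGraph W) (hH : H.Connected)
    (hW : 3 ≤ Fintype.card W) (hr : 10 ^ 8 * (Fintype.card W * Nat.log 2 (Fintype.card W)) ≤ r)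
    {V : Type*} [Fintype V] (G : SimpleGraph V)
    (hG : ¬ Model (starJoin (r - 1) H) G Set.univ) {C : Type*} (A : V → Finset C)
    (hA : ∀ v, r + 1 ≤ (A v).card) :
    ∃ c : V → C, (∀ v, c v ∈ A v) ∧
      (∀ v y y', G.Adj v y → G.Adj v y' → c y = c v → c y' = c v → y = y') ∧
      ∀ i, ¬ Model H G {v | c v = i} := by
  classical
  rcases isEmpty_or_nonempty V with hV | ⟨⟨v₀⟩⟩
  · refine ⟨fun v => (hV.false v).elim, fun v => (hV.false v).elim,
      fun v => (hV.false v).elim, fun i ⟨f, _, _, h3, _⟩ => ?_⟩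
    obtain ⟨a⟩ := hH.nonempty
    obtain ⟨x⟩ := (h3 a).nonempty
    exact hV.false x.1
  obtain ⟨i₀, _⟩ : (A v₀).Nonempty := Finset.card_pos.mp (by
    have := hA v₀
    omega)
  haveI : Nonempty C := ⟨i₀⟩
  obtain ⟨l, b, hp⟩ := par_exists hW hr
  have hd : ∀ L ⊆ (Finset.univ : Finset V), L.Nonempty → 3 * e2 G L < 4 * (r + 1) * L.card := by
    intro L _ hL
    by_contra hc
    push Not at hc
    apply hG
    have h1 : 2 * (2 * (r + 1) / 3) * L.card ≤ e2 G L := by
      have h2 : 3 * (2 * (r + 1) / 3) ≤ 2 * (r + 1) := Nat.mul_div_le _ _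
      have h3 : 3 * (2 * (2 * (r + 1) / 3) * L.card) ≤ 3 * e2 G L := by
        calc 3 * (2 * (2 * (r + 1) / 3) * L.card) = 2 * (3 * (2 * (r + 1) / 3)) * L.card := by ring
          _ ≤ 2 * (2 * (r + 1)) * L.card :=
            Nat.mul_le_mul_right _ (Nat.mul_le_mul_left _ h2)
          _ = 4 * (r + 1) * L.card := by ring
          _ ≤ 3 * e2 G L := hc
      omega
    have h2 := ext_minor G L (m := r - 1) hp (by omega) hL h1
    exact star_model (h2.mono (Set.subset_univ _))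
  obtain ⟨c, hcA, hc⟩ := col_set (k := r + 1) A hA Finset.univ hd
  have hc' : ∀ v y y', G.Adj v y → G.Adj v y' → c y = c v → c y' = c v → y = y' := by
    intro v y y' h1 h2 h3 h4
    have h5 := hc v (Finset.mem_univ v)
    rw [Finset.card_le_one] at h5
    refine h5 y ?_ y' ?_
    · rw [Finset.mem_filter]
      exact ⟨Finset.mem_univ _, h1, h3⟩
    · rw [Finset.mem_filter]
      exact ⟨Finset.mem_univ _, h2, h4⟩
  refine ⟨c, fun v => hcA v (Finset.mem_univ v), hc', fun i => no_model hH hW ?_⟩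
  intro v hv y hy y' hy' h1 h2
  exact hc' v y y' h1 h2 (hy.trans hv.symm) (hy'.trans hv.symm)

end Pool.Agent.Lib.MP_426cf1_co
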