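import Pool.Agent.Lib.MP_426cf1_co.Dia
import Pool.Agent.Lib.MP_426cf1_co.Dom

/-!
# JOB Hub: hubs

`hub_one`: Let `x ∈ F \ U`, `S = F \ U`, `d = β - |U| ≥ β / 2` (so `2 d ≥ β`, `d ≥ 1`). Every vertex of `F` and of `M` has at least `d` neighbours in `S` (`dg_sdiff`), `|S| ≤ |F| ≤ 16 β ≤ 32 d`. By `dom'` there is `Y ⊆ S`, `|Y| ≤ 22 l`, `2 ^ l * |ud G Y M| ≤ |M|`. By `dia` (`q = 16`) there is for every
`y ∈ Y` a connected set `P y ⊆ S` containing `x` and `y` with at most `96` elements. `R = {x} ∪ ⋃ y ∈ Y, P y` (if `Y = ∅` it is `{x}`) is connected (all the `P y` contain `x`; `SimpleGraph.induce_union_connected` with `Finset.induction`, or `induce_sUnion_connected_of_pairwise_not_disjoint`), `|R| ≤ 1 + 22 l * 96 = kp l`, `Y ⊆ R`, so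
`ud G R M ⊆ ud G Y M`.

`hubs`: apply `hub_one` successively for `i = 0, 1, ..., s - 1` with `U = U₀ ∪ {x j : j ≠ i} ∪ ⋃_{j < i} R j`, `|U| ≤ |U₀| + s + s * kp l ≤ b`. Formally: show by induction on `n ≤ s` that there is `R : Fin s → Finset V` such that the conditions hold for the indices `i, j` with `(i : ℕ) < n`, `(j : ℕ) < n` and moreover
`x j ∉ R i` for `i < n`, `j ≠ i`.
-/

set_option autoImplicit false

namespace Pool.Agent.Lib.MP_426cf1_co

variable {V : Type*} [DecidableEq V]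

private theorem Hub_reach {G : SimpleGraph V} {P R : Finset V} (h : P ⊆ R) {x y : V}
    (hx : x ∈ P) (hy : y ∈ P) (hP : (G.induce (P : Set V)).Connected) (hx' : x ∈ R) (hy' : y ∈ R) :
    (G.induce (R : Set V)).Reachable ⟨x, hx'⟩ ⟨y, hy'⟩ := by
  have h1 : (P : Set V) ⊆ (R : Set V) := Finset.coe_subset.mpr h
  have h2 := hP.preconnected ⟨x, hx⟩ ⟨y, hy⟩
  exact h2.map (G.induceHomOfLE h1).toHom

private theorem Hub_ud {G : SimpleGraph V} {Y R : Finset V} (h : Y ⊆ R) (M : Finset V) :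
    (ud G R M).card ≤ (ud G Y M).card := by
  classical
  refine Finset.card_le_card fun w hw => ?_
  unfold ud at hw ⊢
  rw [Finset.mem_filter] at hw ⊢
  exact ⟨hw.1, fun y hy => hw.2 y (h hy)⟩

theorem hub_one {G : SimpleGraph V} {F M U : Finset V} {β : ℕ} (hβ : 1 ≤ β)
    (hconn : ∀ x ∈ F \ U, ∀ y ∈ F \ U, ∃ p : G.Walk x y, ∀ v ∈ p.support, v ∈ F \ U)
    (hF : ∀ v ∈ F, β ≤ dg G F v) (hM : ∀ w ∈ M, β ≤ dg G F w) (hU : 2 * U.card ≤ β)
    (hc : F.card ≤ 16 * β) (l : ℕ) {x : V} (hx : x ∈ F \ U) :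
    ∃ R ⊆ F \ U, x ∈ R ∧ (G.induce (R : Set V)).Connected ∧ R.card ≤ kp l ∧
      2 ^ l * (ud G R M).card ≤ M.card := by
  obtain ⟨S, hS⟩ : ∃ S : Finset V, S = F \ U := ⟨_, rfl⟩
  rw [← hS] at hconn hx ⊢
  obtain ⟨d, hd⟩ : ∃ d : ℕ, d = β - U.card := ⟨_, rfl⟩
  have hd1 : 1 ≤ d := by omega
  have hdS : ∀ v, β ≤ dg G F v → d ≤ dg G S v := by
    intro v hv
    have h1 := dg_sdiff (G := G) F U v
    rw [← hS] at h1
    omega
  have hSF : S ⊆ F := by
    rw [hS]
    exact Finset.sdiff_subset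
  have hScard : S.card ≤ 32 * d := by
    have h1 := Finset.card_le_card hSF
    omega
  obtain ⟨Y, hYS, hYc, hYu⟩ := dom' hd1 (fun w hw => hdS w (hM w hw)) hScard l
  have hP : ∀ y : V, ∃ P : Finset V, y ∈ Y → (x ∈ P ∧ y ∈ P ∧ P ⊆ S ∧ P.card ≤ 96 ∧
      (G.induce (P : Set V)).Connected) := by
    intro y
    by_cases hy : y ∈ Y
    · obtain ⟨P, h1, h2, h3, h4, h5⟩ := dia (q := 16) hd1 hconn
        (fun v hv => hdS v (hF v (hSF hv))) (by omega) hx (hYS hy)
      exact ⟨P, fun _ => ⟨h1, h2, h3, h4, h5⟩⟩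
    · exact ⟨∅, fun h => absurd h hy⟩
  choose P hP using hP
  obtain ⟨R, hR⟩ : ∃ R : Finset V, R = insert x (Y.biUnion P) := ⟨_, rfl⟩
  have hxR : x ∈ R := by
    rw [hR]
    exact Finset.mem_insert_self _ _
  have hPR : ∀ y ∈ Y, P y ⊆ R := by
    intro y hy v hv
    rw [hR]
    exact Finset.mem_insert_of_mem (Finset.mem_biUnion.mpr ⟨y, hy, hv⟩)
  have hYR : Y ⊆ R := fun y hy => hPR y hy (hP y hy).2.1
  refine ⟨R, ?_, hxR, ?_, ?_, ?_⟩
  · intro v hv
    rw [hR, Finset.mem_insert] at hv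
    rcases hv with hv | hv
    · rw [hv]
      exact hx
    · obtain ⟨y, hy, hvy⟩ := Finset.mem_biUnion.mp hv
      exact (hP y hy).2.2.1 hvy
  · rw [SimpleGraph.connected_iff_exists_forall_reachable]
    refine ⟨⟨x, hxR⟩, ?_⟩
    rintro ⟨v, hv⟩
    have hv' : v ∈ R := hv
    rw [hR, Finset.mem_insert] at hv'
    rcases hv' with hv' | hv'
    · subst hv'
      exact SimpleGraph.Reachable.refl _
    · obtain ⟨y, hy, hvy⟩ := Finset.mem_biUnion.mp hv'
      exact Hub_reach (hPR y hy) (hP y hy).1 hvy (hP y hy).2.2.2.2 hxR hv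
  · have h1 : (Y.biUnion P).card ≤ Y.card * 96 :=
      Finset.card_biUnion_le_card_mul Y P 96 fun y hy => (hP y hy).2.2.2.1
    have h2 : R.card ≤ (Y.biUnion P).card + 1 := by
      rw [hR]
      exact Finset.card_insert_le _ _
    show R.card ≤ 1 + 2112 * l
    omega
  · exact (Nat.mul_le_mul_left _ (Hub_ud hYR M)).trans hYu

theorem hubs {G : SimpleGraph V} {F M U₀ : Finset V} {β b s : ℕ} (hβ : 1 ≤ β)
    (hrob : Rob b G F) (hF : ∀ v ∈ F, β ≤ dg G F v) (hM : ∀ w ∈ M, β ≤ dg G F w)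
    (hc : F.card ≤ 16 * β) (l : ℕ) (hb : U₀.card + s + s * kp l ≤ b) (hbβ : 2 * b ≤ β)
    (x : Fin s → V) (hx : ∀ i, x i ∈ F) (hx₀ : ∀ i, x i ∉ U₀) (hinj : Function.Injective x) :
    ∃ R : Fin s → Finset V, (∀ i, R i ⊆ F) ∧ (∀ i, Disjoint (R i) U₀) ∧ (∀ i, x i ∈ R i) ∧
      (∀ i j, i ≠ j → Disjoint (R i) (R j)) ∧ (∀ i, (G.induce (R i : Set V)).Connected) ∧
      (∀ i, (R i).card ≤ kp l) ∧ ∀ i, 2 ^ l * (ud G (R i) M).card ≤ M.card := by
  have key : ∀ n : ℕ, n ≤ s → ∃ R : Fin s → Finset V, ∀ i : Fin s, (i : ℕ) < n →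
      (R i ⊆ F ∧ Disjoint (R i) U₀ ∧ x i ∈ R i ∧ (G.induce (R i : Set V)).Connected ∧
        (R i).card ≤ kp l ∧ 2 ^ l * (ud G (R i) M).card ≤ M.card ∧
        (∀ j, j ≠ i → x j ∉ R i) ∧ ∀ j : Fin s, (j : ℕ) < (i : ℕ) → Disjoint (R i) (R j)) := by
    intro n
    induction n with
    | zero =>
      intro _
      exact ⟨fun _ => ∅, fun i hi => absurd hi (Nat.not_lt_zero _)⟩
    | succ n ih =>
      intro hn
      obtain ⟨R, hR⟩ := ih (by omega)
      obtain ⟨i0, hi0⟩ : ∃ i0 : Fin s, i0 = ⟨n, by omega⟩ := ⟨_, rfl⟩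
      have hi0n : (i0 : ℕ) = n := by rw [hi0]
      obtain ⟨A, hA⟩ : ∃ A : Finset V,
          A = (Finset.univ.filter fun j : Fin s => j ≠ i0).image x := ⟨_, rfl⟩
      obtain ⟨B, hB⟩ : ∃ B : Finset V,
          B = (Finset.univ.filter fun j : Fin s => (j : ℕ) < n).biUnion R := ⟨_, rfl⟩
      have hAc : A.card ≤ s := by
        rw [hA]
        refine Finset.card_image_le.trans ?_
        refine (Finset.card_filter_le _ _).trans ?_
        rw [Finset.card_univ, Fintype.card_fin]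
      have hBc : B.card ≤ s * kp l := by
        rw [hB]
        refine (Finset.card_biUnion_le_card_mul _ _ (kp l) fun j hj => ?_).trans ?_
        · exact (hR j (Finset.mem_filter.mp hj).2).2.2.2.2.1
        · refine Nat.mul_le_mul_right _ ?_
          refine (Finset.card_filter_le _ _).trans ?_
          rw [Finset.card_univ, Fintype.card_fin]
      have hUc : (U₀ ∪ A ∪ B).card ≤ b := by
        have h1 := Finset.card_union_le (U₀ ∪ A) B
        have h2 := Finset.card_union_le U₀ A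
        omega
      have hmem : ∀ v, v ∉ U₀ → v ∉ A → v ∉ B → v ∉ U₀ ∪ A ∪ B := by
        intro v h1 h2 h3 h4
        rw [Finset.mem_union, Finset.mem_union] at h4
        rcases h4 with (h4 | h4) | h4
        · exact h1 h4
        · exact h2 h4
        · exact h3 h4
      have hxi : x i0 ∈ F \ (U₀ ∪ A ∪ B) := by
        rw [Finset.mem_sdiff]
        refine ⟨hx i0, hmem _ (hx₀ i0) ?_ ?_⟩
        · intro h
          rw [hA] at h
          obtain ⟨j, hj, hjx⟩ := Finset.mem_image.mp h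
          exact (Finset.mem_filter.mp hj).2 (hinj hjx)
        · intro h
          rw [hB] at h
          obtain ⟨j, hj, hjx⟩ := Finset.mem_biUnion.mp h
          have hj' := (Finset.mem_filter.mp hj).2
          refine (hR j hj').2.2.2.2.2.2.1 i0 ?_ hjx
          intro h5
          rw [← h5, hi0n] at hj'
          exact lt_irrefl _ hj'
      obtain ⟨R0, hR0F, hR0x, hR0c, hR0k, hR0u⟩ := hub_one (U := U₀ ∪ A ∪ B) hβ
        (fun y hy z hz => by
          rw [Finset.mem_sdiff] at hy hz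
          obtain ⟨p, hp⟩ := hrob _ hUc y hy.1 hy.2 z hz.1 hz.2
          exact ⟨p, fun v hv => Finset.mem_sdiff.mpr (hp v hv)⟩)
        hF hM (by omega) hc l hxi
      have hR0' : ∀ v ∈ R0, v ∈ F ∧ v ∉ U₀ ∧ v ∉ A ∧ v ∉ B := by
        intro v hv
        have h1 := Finset.mem_sdiff.mp (hR0F hv)
        refine ⟨h1.1, fun h => h1.2 ?_, fun h => h1.2 ?_, fun h => h1.2 ?_⟩
        · exact Finset.mem_union_left _ (Finset.mem_union_left _ h)
        · exact Finset.mem_union_left _ (Finset.mem_union_right _ h)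
        · exact Finset.mem_union_right _ h
      obtain ⟨R', hR'⟩ : ∃ R' : Fin s → Finset V, R' = fun i => if i = i0 then R0 else R i :=
        ⟨_, rfl⟩
      have hR'0 : R' i0 = R0 := by
        rw [hR']
        exact if_pos rfl
      have hR'n : ∀ i, i ≠ i0 → R' i = R i := fun i hi => by
        rw [hR']
        exact if_neg hi
      refine ⟨R', fun i hi => ?_⟩
      by_cases hii : i = i0
      · rw [hii, hR'0]
        refine ⟨fun v hv => (hR0' v hv).1, ?_, hR0x, hR0c, hR0k, hR0u, fun j hj h => ?_,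
          fun j hj => ?_⟩
        · exact Finset.disjoint_left.mpr fun v hv => (hR0' v hv).2.1
        · refine (hR0' _ h).2.2.1 ?_
          rw [hA]
          exact Finset.mem_image.mpr ⟨j, Finset.mem_filter.mpr ⟨Finset.mem_univ _, hj⟩, rfl⟩
        · have hj0 : j ≠ i0 := fun h => by
            rw [h] at hj
            exact lt_irrefl _ hj
          rw [hR'n j hj0]
          refine Finset.disjoint_left.mpr fun v hv hvj => (hR0' v hv).2.2.2 ?_
          rw [hB]
          refine Finset.mem_biUnion.mpr ⟨j, Finset.mem_filter.mpr ⟨Finset.mem_univ _, ?_⟩, hvj⟩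
          rw [hi0n] at hj
          exact hj
      · have hin : (i : ℕ) < n := by
          have h1 : (i : ℕ) ≠ n := fun h => hii (Fin.ext (by rw [h, hi0n]))
          omega
        obtain ⟨h1, h2, h3, h4, h5, h6, h7, h8⟩ := hR i hin
        rw [hR'n i hii]
        refine ⟨h1, h2, h3, h4, h5, h6, h7, fun j hj => ?_⟩
        have hj0 : j ≠ i0 := fun h => by
          rw [h, hi0n] at hj
          omega
        rw [hR'n j hj0]
        exact h8 j hj
  obtain ⟨R, hR⟩ := key s le_rfl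
  refine ⟨R, fun i => (hR i i.2).1, fun i => (hR i i.2).2.1, fun i => (hR i i.2).2.2.1,
    fun i j hij => ?_, fun i => (hR i i.2).2.2.2.1, fun i => (hR i i.2).2.2.2.2.1,
    fun i => (hR i i.2).2.2.2.2.2.1⟩
  rcases lt_trichotomy (i : ℕ) (j : ℕ) with h | h | h
  · exact ((hR j j.2).2.2.2.2.2.2.2 i h).symm
  · exact absurd (Fin.ext h) hij
  · exact (hR i i.2).2.2.2.2.2.2.2 j h

end Pool.Agent.Lib.MP_426cf1_co
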