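import Pool.Agent.Lib.MP_426cf1_co.Defs

/-!
# JOB MenA: Menger's theorem, part A (walks)

* `walk_first`: a walk from `a` which meets the set `P` has an initial segment `q` from `a` to a vertex `z ∈ P` whose only vertex in `P` is its last vertex. (Induction on the walk; or
  `SimpleGraph.Walk.exists_mem_support_forall_mem_support_imp_eq` for finite sets.) The edges of `q` are edges of `p`.
* `walk_last`: the same for the last vertex (reverse the walk).
* `lk_trim`: trim all walks of a linkage from `A` to `B`: first `walk_last` for `A`, then `walk_first` for `B`.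
* `del_walk`: a walk not using the edge `x y` is a walk of `G.deleteEdges {s(x, y)}` (`Walk.toDeleteEdges`). A walk which does not contain `x` does not use the edge `x y`.
-/

set_option autoImplicit false

namespace Pool.Agent.Lib.MP_426cf1_co

variable {V : Type*} {G : SimpleGraph V}

theorem walk_first (P : Set V) {a b : V} (p : G.Walk a b) (h : ∃ v ∈ p.support, v ∈ P) :
    ∃ (z : V) (q : G.Walk a z), z ∈ P ∧ (∀ v ∈ q.support, v ∈ p.support) ∧
      (∀ e ∈ q.edges, e ∈ p.edges) ∧ ∀ v ∈ q.support, v ∈ P → v = z := by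
  induction p with
  | nil =>
    obtain ⟨v, hv, hP⟩ := h
    rw [SimpleGraph.Walk.support_nil, List.mem_singleton] at hv
    subst hv
    exact ⟨v, SimpleGraph.Walk.nil, hP, fun w hw => hw, fun e he => he, fun w hw _ => by
      rwa [SimpleGraph.Walk.support_nil, List.mem_singleton] at hw⟩
  | @cons u w b hadj p ih =>
    by_cases hu : u ∈ P
    · refine ⟨u, SimpleGraph.Walk.nil, hu, fun v hv => ?_, fun e he => ?_, fun v hv _ => ?_⟩
      · rw [SimpleGraph.Walk.support_nil, List.mem_singleton] at hv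
        rw [hv]
        exact SimpleGraph.Walk.start_mem_support _
      · rw [SimpleGraph.Walk.edges_nil] at he
        exact absurd he List.not_mem_nil
      · rwa [SimpleGraph.Walk.support_nil, List.mem_singleton] at hv
    · obtain ⟨v, hv, hP⟩ := h
      rw [SimpleGraph.Walk.support_cons, List.mem_cons] at hv
      have hv' : v ∈ p.support := by
        rcases hv with rfl | hv
        · exact absurd hP hu
        · exact hv
      obtain ⟨z, q, hz, h1, h2, h3⟩ := ih ⟨v, hv', hP⟩
      refine ⟨z, SimpleGraph.Walk.cons hadj q, hz, fun v hv => ?_, fun e he => ?_,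
        fun v hv hvP => ?_⟩
      · rw [SimpleGraph.Walk.support_cons, List.mem_cons] at hv ⊢
        rcases hv with rfl | hv
        · exact Or.inl rfl
        · exact Or.inr (h1 v hv)
      · rw [SimpleGraph.Walk.edges_cons, List.mem_cons] at he ⊢
        rcases he with rfl | he
        · exact Or.inl rfl
        · exact Or.inr (h2 e he)
      · rw [SimpleGraph.Walk.support_cons, List.mem_cons] at hv
        rcases hv with rfl | hv
        · exact absurd hvP hu
        · exact h3 v hv hvP

theorem walk_last (P : Set V) {a b : V} (p : G.Walk a b) (h : ∃ v ∈ p.support, v ∈ P) :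
    ∃ (z : V) (q : G.Walk z b), z ∈ P ∧ (∀ v ∈ q.support, v ∈ p.support) ∧
      (∀ e ∈ q.edges, e ∈ p.edges) ∧ ∀ v ∈ q.support, v ∈ P → v = z := by
  obtain ⟨z, q, hz, h1, h2, h3⟩ := walk_first P p.reverse (by
    obtain ⟨v, hv, hP⟩ := h
    exact ⟨v, by rw [SimpleGraph.Walk.support_reverse, List.mem_reverse]; exact hv, hP⟩)
  refine ⟨z, q.reverse, hz, fun v hv => ?_, fun e he => ?_, fun v hv hvP => ?_⟩
  · rw [SimpleGraph.Walk.support_reverse, List.mem_reverse] at hv
    have := h1 v hv
    rwa [SimpleGraph.Walk.support_reverse, List.mem_reverse] at this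
  · rw [SimpleGraph.Walk.edges_reverse, List.mem_reverse] at he
    have := h2 e he
    rwa [SimpleGraph.Walk.edges_reverse, List.mem_reverse] at this
  · rw [SimpleGraph.Walk.support_reverse, List.mem_reverse] at hv
    exact h3 v hv hvP

/-- A trimmed linkage. -/
theorem lk_trim {A B : Set V} {k : ℕ} (h : Lk G A B k) :
    ∃ (x y : Fin k → V) (p : ∀ i, G.Walk (x i) (y i)), (∀ i, x i ∈ A) ∧ (∀ i, y i ∈ B) ∧
      (∀ i j, i ≠ j → ∀ v ∈ (p i).support, v ∉ (p j).support) ∧
      (∀ i, ∀ v ∈ (p i).support, v ∈ A → v = x i) ∧ ∀ i, ∀ v ∈ (p i).support, v ∈ B → v = y i := by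
  obtain ⟨x, y, p, hx, hy, hd⟩ := h
  have key : ∀ i, ∃ (a b : V) (r : G.Walk a b), a ∈ A ∧ b ∈ B ∧
      (∀ v ∈ r.support, v ∈ (p i).support) ∧ (∀ v ∈ r.support, v ∈ A → v = a) ∧
      ∀ v ∈ r.support, v ∈ B → v = b := by
    intro i
    obtain ⟨a, q, ha, h1, -, h3⟩ := walk_last A (p i)
      ⟨x i, SimpleGraph.Walk.start_mem_support _, hx i⟩
    obtain ⟨b, r, hb, h4, -, h6⟩ := walk_first B q
      ⟨y i, SimpleGraph.Walk.end_mem_support _, hy i⟩
    exact ⟨a, b, r, ha, hb, fun v hv => h1 v (h4 v hv), fun v hv => h3 v (h4 v hv), h6⟩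
  choose a b r ha hb h1 h2 h3 using key
  exact ⟨a, b, r, ha, hb, fun i j hij v hv hv' => hd i j hij v (h1 i v hv) (h1 j v hv'), h2, h3⟩

theorem del_walk [DecidableEq V] {x y a b : V} (p : G.Walk a b) (h : s(x, y) ∉ p.edges) :
    ∃ q : (G.deleteEdges {s(x, y)}).Walk a b, ∀ v, v ∈ q.support ↔ v ∈ p.support := by
  have h1 : ∀ e ∈ p.edges, e ∈ (G.deleteEdges {s(x, y)}).edgeSet := by
    intro e he
    rw [SimpleGraph.edgeSet_deleteEdges]
    refine ⟨SimpleGraph.Walk.edges_subset_edgeSet p he, fun h2 => ?_⟩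
    rw [Set.mem_singleton_iff] at h2
    rw [h2] at he
    exact h he
  exact ⟨p.transfer _ h1, fun v => by rw [SimpleGraph.Walk.support_transfer]⟩

/-- walks of a subgraph -/
theorem up_walk {G' : SimpleGraph V} (hG : G' ≤ G) {a b : V} (p : G'.Walk a b) :
    ∃ q : G.Walk a b, ∀ v, v ∈ q.support ↔ v ∈ p.support := by
  exact ⟨p.mapLe hG, fun v => by rw [SimpleGraph.Walk.support_mapLe_eq_support]⟩

end Pool.Agent.Lib.MP_426cf1_co
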