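import Pool.Agent.Lib.MP_426cf1_co.MenA

/-!
# JOB MenB: Menger's theorem, part B (the critical separator)

`G'` is `G` without the edge `x y`; `S` separates `A` from `B` in `G'` but not in `G`. Let `RA` be the set of vertices which can be reached from a vertex of `A` by a walk of `G'` avoiding `S`, `RB` the set of
vertices from which `B` can be reached by a walk of `G'` avoiding `S`. `RA ∩ RB = ∅` (otherwise concatenate: a walk of `G'` from `A` to `B` avoiding `S`).

`crit`: as `S` does not separate in `G` there is a walk `p` of `G` from `a ∈ A` to `b ∈ B` avoiding `S`. `a ∈ RA`, `b ∉ RA` (as `b ∈ RB`). Walk along `p` to the first edge `u w` with `u ∈ RA`, `w ∉ RA`: `w ∉ S`, so `u w` is not an edge of `G'`, so `{u, w} = {x, y}`.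
In the same way (from the end) there is an edge `u' w'` of `p` with `u' ∉ RB`, `w' ∈ RB`, and `{u', w'} = {x, y}`. One of `x`, `y` is in `RA`, hence not in `RB`; so the other one is in `RB`. This gives the alternative.

`sep_left` (for `x ∈ RA`, `y ∈ RB`): let `P = S ∪ {x}` and let `S₁` separate `A` from `P` in `G'`. Then `S₁` separates `A` from `B` in `G`. Proof: let `p` be a walk of `G` from `a ∈ A` to `b ∈ B`. It meets `P`: otherwise it avoids `S` and does not use the edge `x y`,
so it is a walk of `G'` from `A` to `B` avoiding `S`. Let `q` be the initial segment to the first vertex `z ∈ P` (`walk_first`). If `q` does not use the edge `x y`, it is a walk of `G'` from `A` to `P` and meets `S₁`. If `q` uses the edge `x y` then `x = z` is its last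
vertex and `y` is the vertex before it (the only vertex of `q` in `P` is the last one): take the part `q'` of `q` from `a` to (the first occurrence of) `y`: it does not contain any vertex of `P` except possibly `z`... more simply: apply `walk_first` to the set `{y} ∪ P`: the initial segment
`q''` of `p` to the first vertex in `P ∪ {y}` does not use the edge `x y` (both ends are in `P ∪ {y}`, and only the last vertex of `q''` is), so it is a walk of `G'`. If it ends in `P` it meets `S₁` (done, its vertices are vertices of `p`). If it ends in `y` (and `y ∉ P`) it avoids `S`, so `y ∈ RA`, contradiction with `y ∈ RB`.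

`sep_right`: the same with all walks reversed, for `Q = S ∪ {y}`.
-/

set_option autoImplicit false

namespace Pool.Agent.Lib.MP_426cf1_co

variable {V : Type*} {G : SimpleGraph V}

/-- the vertices reachable from `A` by walks of `G` avoiding `S` -/
def RA (G : SimpleGraph V) (A S : Set V) : Set V :=
  {v | ∃ a ∈ A, ∃ p : G.Walk a v, ∀ u ∈ p.support, u ∉ S}

theorem RA_disjoint {A B S : Set V} (h : Sep G A B S) {v : V} (h1 : v ∈ RA G A S) :
    v ∉ RA G B S := by
  rintro ⟨b, hb, q, hq⟩
  obtain ⟨a, ha, p, hp⟩ := h1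
  obtain ⟨u, hu, huS⟩ := h a ha b hb (p.append q.reverse)
  rw [SimpleGraph.Walk.mem_support_append_iff] at hu
  rcases hu with hu | hu
  · exact hp u hu huS
  · rw [SimpleGraph.Walk.support_reverse, List.mem_reverse] at hu
    exact hq u hu huS

theorem MenB_start {A S : Set V} {a : V} (ha : a ∈ A) (hS : a ∉ S) : a ∈ RA G A S := by
  refine ⟨a, ha, SimpleGraph.Walk.nil, fun u hu => ?_⟩
  rw [SimpleGraph.Walk.support_nil, List.mem_singleton] at hu
  rw [hu]
  exact hS

theorem MenB_step {A S : Set V} {u w : V} (hu : u ∈ RA G A S) (h : G.Adj u w) (hw : w ∉ S) :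
    w ∈ RA G A S := by
  obtain ⟨a, ha, p, hp⟩ := hu
  refine ⟨a, ha, p.concat h, fun v hv => ?_⟩
  rw [SimpleGraph.Walk.support_concat, List.mem_append, List.mem_singleton] at hv
  rcases hv with hv | hv
  · exact hp v hv
  · rw [hv]
    exact hw

theorem MenB_cross {A S : Set V} {x y a b : V} (p : G.Walk a b) (hp : ∀ v ∈ p.support, v ∉ S)
    (ha : a ∈ RA (G.deleteEdges {s(x, y)}) A S) (hb : b ∉ RA (G.deleteEdges {s(x, y)}) A S) :
    (x ∈ RA (G.deleteEdges {s(x, y)}) A S ∧ y ∉ RA (G.deleteEdges {s(x, y)}) A S) ∨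
      (y ∈ RA (G.deleteEdges {s(x, y)}) A S ∧ x ∉ RA (G.deleteEdges {s(x, y)}) A S) := by
  induction p with
  | nil => exact absurd ha hb
  | cons h p ih =>
    rename_i u v w
    by_cases hv : v ∈ RA (G.deleteEdges {s(x, y)}) A S
    · have hp' : ∀ t ∈ p.support, t ∉ S := by
        intro t ht
        apply hp t
        rw [SimpleGraph.Walk.support_cons]
        exact List.mem_cons_of_mem _ ht
      exact ih hp' hv hb
    · have hvS : v ∉ S := hp v (by
        rw [SimpleGraph.Walk.support_cons]
        exact List.mem_cons_of_mem _ p.start_mem_support)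
      have he : s(u, v) = s(x, y) := by
        by_contra hne
        apply hv
        refine MenB_step ha ?_ hvS
        rw [SimpleGraph.deleteEdges_adj]
        exact ⟨h, hne⟩
      rcases Sym2.eq_iff.1 he with ⟨e1, e2⟩ | ⟨e1, e2⟩
      · rw [e1] at ha
        rw [e2] at hv
        exact Or.inl ⟨ha, hv⟩
      · rw [e1] at ha
        rw [e2] at hv
        exact Or.inr ⟨ha, hv⟩

theorem crit [DecidableEq V] {A B S : Set V} {x y : V} (h : Sep (G.deleteEdges {s(x, y)}) A B S)
    (h' : ¬ Sep G A B S) :
    (x ∈ RA (G.deleteEdges {s(x, y)}) A S ∧ y ∈ RA (G.deleteEdges {s(x, y)}) B S) ∨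
      (y ∈ RA (G.deleteEdges {s(x, y)}) A S ∧ x ∈ RA (G.deleteEdges {s(x, y)}) B S) := by
  have h2 : ∃ a ∈ A, ∃ b ∈ B, ∃ p : G.Walk a b, ∀ v ∈ p.support, v ∉ S := by
    unfold Sep at h'
    push Not at h'
    exact h'
  obtain ⟨a, ha, b, hb, p, hp⟩ := h2
  have ha1 : a ∈ RA (G.deleteEdges {s(x, y)}) A S :=
    MenB_start ha (hp a p.start_mem_support)
  have hb1 : b ∈ RA (G.deleteEdges {s(x, y)}) B S :=
    MenB_start hb (hp b p.end_mem_support)
  have hb2 : b ∉ RA (G.deleteEdges {s(x, y)}) A S := fun h3 => RA_disjoint h h3 hb1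
  have ha2 : a ∉ RA (G.deleteEdges {s(x, y)}) B S := RA_disjoint h ha1
  have e1 := MenB_cross p hp ha1 hb2
  have e2 := MenB_cross p.reverse (fun v hv => hp v (by
    rwa [SimpleGraph.Walk.support_reverse, List.mem_reverse] at hv)) hb1 ha2
  rcases e1 with e1 | e1
  · have e3 : x ∉ RA (G.deleteEdges {s(x, y)}) B S := RA_disjoint h e1.1
    rcases e2 with e2 | e2
    · exact absurd e2.1 e3
    · exact Or.inl ⟨e1.1, e2.1⟩
  · have e3 : y ∉ RA (G.deleteEdges {s(x, y)}) B S := RA_disjoint h e1.1
    rcases e2 with e2 | e2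
    · exact Or.inr ⟨e1.1, e2.1⟩
    · exact absurd e2.1 e3

theorem sep_left [DecidableEq V] {A B S : Set V} {x y : V}
    (h : Sep (G.deleteEdges {s(x, y)}) A B S)
    (hy : y ∈ RA (G.deleteEdges {s(x, y)}) B S) {S₁ : Set V}
    (h₁ : Sep (G.deleteEdges {s(x, y)}) A (S ∪ {x}) S₁) : Sep G A B S₁ := by
  intro a ha b hb p
  by_cases hm : ∃ v ∈ p.support, v ∈ S ∪ {x} ∪ {y}
  · obtain ⟨z, q, hz, hq1, hq2, hq3⟩ := walk_first (S ∪ {x} ∪ {y}) p hm
    have hne : s(x, y) ∉ q.edges := by
      intro he
      have hx1 : x = z := hq3 x (q.fst_mem_support_of_mem_edges he) (Or.inl (Or.inr rfl))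
      have hy1 : y = z := hq3 y (q.snd_mem_support_of_mem_edges he) (Or.inr rfl)
      have hadj : G.Adj x y := q.adj_of_mem_edges he
      rw [hx1, hy1] at hadj
      exact G.loopless.irrefl z hadj
    obtain ⟨q', hq'⟩ := del_walk q hne
    by_cases hzP : z ∈ S ∪ {x}
    · obtain ⟨v, hv, hvS⟩ := h₁ a ha z hzP q'
      exact ⟨v, hq1 v ((hq' v).1 hv), hvS⟩
    · exfalso
      have hzy : z = y := by
        rcases hz with hz | hz
        · exact absurd hz hzP
        · exact hz
      have hyA : z ∈ RA (G.deleteEdges {s(x, y)}) A S := by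
        refine ⟨a, ha, q', fun v hv hvS => ?_⟩
        have hvz := hq3 v ((hq' v).1 hv) (Or.inl (Or.inl hvS))
        rw [hvz] at hvS
        exact hzP (Or.inl hvS)
      rw [hzy] at hyA
      exact RA_disjoint h hyA hy
  · exfalso
    push Not at hm
    have hne : s(x, y) ∉ p.edges := fun he =>
      hm x (p.fst_mem_support_of_mem_edges he) (Or.inl (Or.inr rfl))
    obtain ⟨q', hq'⟩ := del_walk p hne
    obtain ⟨v, hv, hvS⟩ := h a ha b hb q'
    exact hm v ((hq' v).1 hv) (Or.inl (Or.inl hvS))

theorem sep_symm {A B S : Set V} (h : Sep G A B S) : Sep G B A S := by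
  intro b hb a ha p
  obtain ⟨v, hv, hvS⟩ := h a ha b hb p.reverse
  rw [SimpleGraph.Walk.support_reverse, List.mem_reverse] at hv
  exact ⟨v, hv, hvS⟩

theorem sep_right [DecidableEq V] {A B S : Set V} {x y : V}
    (h : Sep (G.deleteEdges {s(x, y)}) A B S)
    (hx : x ∈ RA (G.deleteEdges {s(x, y)}) A S) {S₁ : Set V}
    (h₁ : Sep (G.deleteEdges {s(x, y)}) (S ∪ {y}) B S₁) : Sep G A B S₁ := by
  have e : s(x, y) = s(y, x) := Sym2.eq_swap
  rw [e] at h hx h₁
  exact sep_symm (sep_left (sep_symm h) hx (sep_symm h₁))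

end Pool.Agent.Lib.MP_426cf1_co
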