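import Pool.Agent.Lib.MP_426cf1_co.MenB

/-!
# JOB MenC: Menger's theorem, part C (glueing two linkages)

Let `G'` be `G` without the edge `x y`, `S` a finite set with `|S| + 1 = k`, `x ∉ S`, `y ∉ S`, separating `A` from `B` in `G'`, `x ∈ RA G' A S`, `y ∈ RA G' B S`. Given linkages of size `k` in `G'` from `A` to `P = S ∪ {x}` and from
`Q = S ∪ {y}` to `B`, there is a linkage of size `k` in `G` from `A` to `B`.

PROOF. Trim both (`lk_trim`): walks `p i` from `x i ∈ A` to `y i ∈ P` with only the last vertex in `P`; walks `q i` from `x' i ∈ Q` to `y' i ∈ B` with only the first vertex in `Q`. The ends `y i` are distinct (the walks are disjoint) and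
`|P| = k`, so `i ↦ y i` is a bijection of `Fin k` with `P`; similarly `i ↦ x' i` with `Q`. Let `τ : P → Q` be the bijection `x ↦ y`, `s ↦ s` (`s ∈ S`). For `i : Fin k` let `j = j(i)` be the index with `x' j = τ (y i)` (injective in `i`). The new walk is
`p i` followed by (the edge `x y` if `y i = x`) and by `q j`.
Disjointness: all vertices of `p i` are in `RA G' A S` or are the end `y i ∈ S`: for a vertex `v` of `p i` with `v ≠ y i` the part of `p i` up to (the first occurrence of) `v` avoids `P`, unless it contains `y i ≠ v`; take `takeUntil` of the first occurrence and use that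
a vertex in `P` on it equals `y i`... simplest: replace the walks by paths (`Walk.bypass`, its support is contained in the support) before; in a path from `x i` to `y i` the vertices of `takeUntil v`, `v ≠ y i`, are `≠ y i`, so not in `P`. If `y i = x` then
`x ∈ RA G' A S` by hypothesis. So every vertex of `p i` is in `RA G' A S` or in `S` (and then equal to `y i`). Similarly every vertex of `q j` is in `RA G' B S` or in `S` (and then equal to `x' j`). By `RA_disjoint` (and as vertices of `RA` are not in `S`) a common vertex `v` of `p i` and `q j` is in `S`,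
`v = y i = x' j`. So for `i ≠ i'` the new walks are disjoint: `p i`, `p i'` are disjoint, `q j`, `q j'` are disjoint, and a common vertex of `p i` and `q (j(i'))` would be `v = y i = x' (j(i')) = τ (y i')`, `v ∈ S`, so `y i' = v = y i`, `i = i'`.
-/

set_option autoImplicit false

namespace Pool.Agent.Lib.MP_426cf1_co

variable {V : Type*} {G : SimpleGraph V}

/-- vertices of a path from `A` whose only vertex in `S ∪ {x}` is its end `z` -/
theorem path_side [DecidableEq V] {A S : Set V} {x a z : V} (ha : a ∈ A) (p : G.Walk a z)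
    (hp : p.IsPath) (h : ∀ v ∈ p.support, v ∈ S ∪ {x} → v = z) (hx : x ∈ RA G A S)
    (hz : z ∈ S ∪ {x}) : ∀ v ∈ p.support, v ∈ RA G A S ∨ (v ∈ S ∧ v = z) := by
  intro v hv
  by_cases hvz : v = z
  · rcases hz with hz | hz
    · exact Or.inr ⟨hvz ▸ hz, hvz⟩
    · left
      rw [hvz, hz]
      exact hx
  · left
    refine ⟨a, ha, p.takeUntil v hv, ?_⟩
    intro u hu huS
    have h1 : u = z := h u (p.support_takeUntil_subset_support hv hu) (Or.inl huS)
    rw [h1] at hu
    exact SimpleGraph.Walk.endpoint_notMem_support_takeUntil hp hv (Ne.symm hvz) hu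

theorem glue [DecidableEq V] {A B : Set V} {S : Finset V} {x y : V} {k : ℕ} (hxy : G.Adj x y)
    (hk : S.card + 1 = k) (hxS : x ∉ S) (hyS : y ∉ S)
    (h : Sep (G.deleteEdges {s(x, y)}) A B S)
    (hx : x ∈ RA (G.deleteEdges {s(x, y)}) A S) (hy : y ∈ RA (G.deleteEdges {s(x, y)}) B S)
    (h1 : Lk (G.deleteEdges {s(x, y)}) A (S ∪ {x}) k)
    (h2 : Lk (G.deleteEdges {s(x, y)}) (S ∪ {y}) B k) : Lk G A B k := by
  have hG' : G.deleteEdges {s(x, y)} ≤ G := SimpleGraph.deleteEdges_le _
  generalize hGe : G.deleteEdges {s(x, y)} = G' at h hx hy h1 h2 hG'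
  obtain ⟨x1, y1, p1, hx1, hy1, hd1, -, he1⟩ := lk_trim h1
  obtain ⟨x2, y2, p2, hx2, hy2, hd2, hs2, -⟩ := lk_trim h2
  have hnS : ∀ C v, v ∈ RA G' C (S : Set V) → v ∉ S := by
    rintro C v ⟨a, ha, p, hp⟩ hv
    exact hp v p.end_mem_support hv
  -- the ends
  have hy1i : Function.Injective y1 := by
    intro i j hij
    by_contra hne
    refine hd1 i j hne (y1 i) (p1 i).end_mem_support ?_
    rw [hij]
    exact (p1 j).end_mem_support
  have hx2i : Function.Injective x2 := by
    intro i j hij
    by_contra hne
    refine hd2 i j hne (x2 i) (p2 i).start_mem_support ?_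
    rw [hij]
    exact (p2 j).start_mem_support
  have him : Finset.univ.image x2 = insert y S := by
    apply Finset.eq_of_subset_of_card_le
    · intro v hv
      obtain ⟨i, -, rfl⟩ := Finset.mem_image.1 hv
      rcases hx2 i with h3 | h3
      · exact Finset.mem_insert_of_mem h3
      · rw [Set.mem_singleton_iff.1 h3]
        exact Finset.mem_insert_self _ _
    · rw [Finset.card_image_of_injective _ hx2i, Finset.card_insert_of_notMem hyS, hk,
        Finset.card_univ, Fintype.card_fin]
  have hj : ∀ i, ∃ j, (y1 i = x ∧ x2 j = y) ∨ (y1 i ∈ S ∧ x2 j = y1 i) := by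
    intro i
    rcases hy1 i with h3 | h3
    · have h4 : y1 i ∈ Finset.univ.image x2 := by
        rw [him]
        exact Finset.mem_insert_of_mem h3
      obtain ⟨j, -, hj⟩ := Finset.mem_image.1 h4
      exact ⟨j, Or.inr ⟨h3, hj⟩⟩
    · have h4 : y ∈ Finset.univ.image x2 := by
        rw [him]
        exact Finset.mem_insert_self _ _
      obtain ⟨j, -, hj⟩ := Finset.mem_image.1 h4
      exact ⟨j, Or.inl ⟨h3, hj⟩⟩
  choose j hj using hj
  have hji : ∀ i i', i ≠ i' → j i ≠ j i' := by
    intro i i' hne he
    apply hne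
    apply hy1i
    rcases hj i with ⟨a1, a2⟩ | ⟨a1, a2⟩ <;> rcases hj i' with ⟨b1, b2⟩ | ⟨b1, b2⟩
    · rw [a1, b1]
    · exfalso
      rw [he, b2] at a2
      rw [a2] at b1
      exact hyS b1
    · exfalso
      rw [he, b2] at a2
      rw [← a2] at a1
      exact hyS a1
    · rw [he, b2] at a2
      exact a2.symm
  -- the paths
  have hside1 : ∀ i, ∀ v ∈ (p1 i).bypass.support,
      v ∈ RA G' A (S : Set V) ∨ (v ∈ (S : Set V) ∧ v = y1 i) := by
    intro i
    refine path_side (hx1 i) (p1 i).bypass (p1 i).bypass_isPath ?_ hx (hy1 i)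
    intro v hv hvP
    exact he1 i v ((p1 i).support_bypass_subset_support hv) hvP
  have hside2 : ∀ i, ∀ v ∈ (p2 i).bypass.support,
      v ∈ RA G' B (S : Set V) ∨ (v ∈ (S : Set V) ∧ v = x2 i) := by
    intro i v hv
    refine path_side (hy2 i) (p2 i).bypass.reverse ((p2 i).bypass_isPath.reverse) ?_ hy (hx2 i) v ?_
    · intro v hv hvP
      rw [SimpleGraph.Walk.support_reverse, List.mem_reverse] at hv
      exact hs2 i v ((p2 i).support_bypass_subset_support hv) hvP
    · rw [SimpleGraph.Walk.support_reverse, List.mem_reverse]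
      exact hv
  have hcross : ∀ i i', i ≠ i' → ∀ v ∈ (p1 i).bypass.support,
      v ∉ (p2 (j i')).bypass.support := by
    intro i i' hne v hv hv'
    rcases hside1 i v hv with h3 | ⟨h3, h4⟩
    · rcases hside2 (j i') v hv' with h5 | ⟨h5, h6⟩
      · exact RA_disjoint h h3 h5
      · exact hnS _ _ h3 h5
    · rcases hside2 (j i') v hv' with h5 | ⟨h5, h6⟩
      · exact hnS _ _ h5 h3
      · rcases hj i' with ⟨b1, b2⟩ | ⟨b1, b2⟩
        · rw [h6, b2] at h3
          exact hyS h3
        · apply hne
          apply hy1i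
          rw [← h4, h6, b2]
  have hw : ∀ i, ∃ w : G.Walk (x1 i) (y2 (j i)), ∀ v ∈ w.support,
      v ∈ (p1 i).bypass.support ∨ v ∈ (p2 (j i)).bypass.support := by
    intro i
    obtain ⟨u1, hu1⟩ := up_walk hG' (p1 i).bypass
    obtain ⟨u2, hu2⟩ := up_walk hG' (p2 (j i)).bypass
    rcases hj i with ⟨a1, a2⟩ | ⟨a1, a2⟩
    · have hadj : G.Adj (y1 i) (x2 (j i)) := by
        rw [a1, a2]
        exact hxy
      refine ⟨u1.append (SimpleGraph.Walk.cons hadj u2), ?_⟩
      intro v hv
      rw [SimpleGraph.Walk.mem_support_append_iff, SimpleGraph.Walk.support_cons,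
        List.mem_cons] at hv
      rcases hv with hv | hv | hv
      · exact Or.inl ((hu1 v).1 hv)
      · left
        rw [hv]
        exact (p1 i).bypass.end_mem_support
      · exact Or.inr ((hu2 v).1 hv)
    · refine ⟨u1.append (u2.copy a2 rfl), ?_⟩
      intro v hv
      rw [SimpleGraph.Walk.mem_support_append_iff, SimpleGraph.Walk.support_copy] at hv
      rcases hv with hv | hv
      · exact Or.inl ((hu1 v).1 hv)
      · exact Or.inr ((hu2 v).1 hv)
  choose w hw using hw
  refine ⟨x1, fun i => y2 (j i), w, hx1, fun i => hy2 _, ?_⟩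
  intro i i' hne v hv hv'
  rcases hw i v hv with h3 | h3 <;> rcases hw i' v hv' with h4 | h4
  · exact hd1 i i' hne v ((p1 i).support_bypass_subset_support h3) ((p1 i').support_bypass_subset_support h4)
  · exact hcross i i' hne v h3 h4
  · exact hcross i' i (Ne.symm hne) v h4 h3
  · exact hd2 _ _ (hji i i' hne) v ((p2 (j i)).support_bypass_subset_support h3)
      ((p2 (j i')).support_bypass_subset_support h4)

end Pool.Agent.Lib.MP_426cf1_co
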