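import Pool.Agent.Lib.MP_426cf1_co.MenC

/-!
# JOB MenD: Menger's theorem

Induction on the number of edges of `G` (`G.edgeSet.ncard`, or `G.edgeFinset.card` with classical decidability), for all `A`, `B`, `k`.
No edges: every walk is trivial, so `A ∩ B` (a finite set) separates, hence `k ≤ |A ∩ B|`; take `k` distinct vertices and trivial walks.
Let `x y` be an edge and `G' = G.deleteEdges {s(x, y)}` (fewer edges). If every finite `S` with `Sep G' A B S` has `|S| ≥ k`, the induction gives a linkage in `G'`, hence in `G` (`up_walk`). Otherwise let `Sep G' A B S`, `|S| < k`. `S` does not separate in `G`; by `crit` we may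
assume `x ∈ RA G' A S`, `y ∈ RA G' B S` (the other case is the same with `x`, `y` exchanged; `s(x, y) = s(y, x)`). `x ∉ S`, `y ∉ S` (vertices of `RA` are not in `S`). `S ∪ {x}` separates in `G` (a walk of `G` from `A` to `B` avoiding `x` does not use the edge `x y`, so it is a walk of
`G'` and meets `S`), so `k ≤ |S| + 1`, `k = |S| + 1`. By `sep_left` every finite `S₁` with `Sep G' A (S ∪ {x}) S₁` has `|S₁| ≥ k`; the induction gives `Lk G' A (S ∪ {x}) k`. Similarly (`sep_right`) `Lk G' (S ∪ {y}) B k`. Apply `glue`.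
-/

set_option autoImplicit false

namespace Pool.Agent.Lib.MP_426cf1_co

variable {V : Type*}

theorem MenD_mono {G G' : SimpleGraph V} (hG : G' ≤ G) {A B : Set V} {k : ℕ} (h : Lk G' A B k) :
    Lk G A B k := by
  obtain ⟨x, y, p, hx, hy, hp⟩ := h
  choose q hq using fun i => up_walk hG (p i)
  exact ⟨x, y, q, hx, hy, fun i j hij v hv hv' =>
    hp i j hij v ((hq i v).1 hv) ((hq j v).1 hv')⟩

theorem MenD_key [DecidableEq V] {G : SimpleGraph V} {A B : Set V} {k : ℕ}
    (h : ∀ S : Finset V, Sep G A B S → k ≤ S.card) {x y : V} (hxy : G.Adj x y) {S : Finset V}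
    (hS : Sep (G.deleteEdges {s(x, y)}) A B S) (hSk : S.card < k)
    (hx : x ∈ RA (G.deleteEdges {s(x, y)}) A S) (hy : y ∈ RA (G.deleteEdges {s(x, y)}) B S)
    (ih : ∀ A' B' : Set V, (∀ S : Finset V, Sep (G.deleteEdges {s(x, y)}) A' B' S → k ≤ S.card) →
      Lk (G.deleteEdges {s(x, y)}) A' B' k) : Lk G A B k := by
  have hnot : ∀ {C : Set V} {z : V}, z ∈ RA (G.deleteEdges {s(x, y)}) C (S : Set V) → z ∉ S := by
    rintro C z ⟨a, ha, p, hp⟩ hz
    exact hp z p.end_mem_support hz
  have hk : S.card + 1 = k := by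
    have h1 := h (insert x S) (by
      intro a ha b hb p
      by_cases hxp : x ∈ p.support
      · exact ⟨x, hxp, Finset.mem_coe.2 (Finset.mem_insert_self x S)⟩
      · have hne : s(x, y) ∉ p.edges := fun he => hxp (p.fst_mem_support_of_mem_edges he)
        obtain ⟨q, hq⟩ := del_walk p hne
        obtain ⟨v, hv, hvS⟩ := hS a ha b hb q
        exact ⟨v, (hq v).1 hv, Finset.mem_coe.2 (Finset.mem_insert_of_mem hvS)⟩)
    have h2 := Finset.card_insert_le x S
    omega
  exact glue hxy hk (hnot hx) (hnot hy) hS hx hy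
    (ih _ _ fun S₁ h₁ => h S₁ (sep_left hS hy h₁))
    (ih _ _ fun S₁ h₁ => h S₁ (sep_right hS hx h₁))

theorem menger [Finite V] (G : SimpleGraph V) (A B : Set V) (k : ℕ)
    (h : ∀ S : Finset V, Sep G A B S → k ≤ S.card) : Lk G A B k := by
  classical
  have hfin : Fintype V := Fintype.ofFinite V
  induction hn : G.edgeSet.ncard using Nat.strong_induction_on generalizing G A B with
  | _ n ih =>
    by_cases hE : ∃ x y, G.Adj x y
    · obtain ⟨x, y, hxy⟩ := hE
      have hlt : (G.deleteEdges {s(x, y)}).edgeSet.ncard < n := by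
        rw [← hn, SimpleGraph.edgeSet_deleteEdges]
        exact Set.ncard_sdiff_singleton_lt_of_mem ((SimpleGraph.mem_edgeSet G).2 hxy)
      by_cases hall : ∀ S : Finset V, Sep (G.deleteEdges {s(x, y)}) A B S → k ≤ S.card
      · exact MenD_mono (SimpleGraph.deleteEdges_le _) (ih _ hlt _ A B hall rfl)
      · push Not at hall
        obtain ⟨S, hS, hSk⟩ := hall
        have hns : ¬ Sep G A B S := fun h1 => absurd (h S h1) (not_le.2 hSk)
        rcases crit hS hns with ⟨h1, h2⟩ | ⟨h1, h2⟩
        · exact MenD_key h hxy hS hSk h1 h2 (fun A' B' h3 => ih _ hlt _ A' B' h3 rfl)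
        · have e : s(x, y) = s(y, x) := Sym2.eq_swap
          rw [e] at hS h1 h2 hlt
          exact MenD_key h hxy.symm hS hSk h1 h2 (fun A' B' h3 => ih _ hlt _ A' B' h3 rfl)
    · have hsep : Sep G A B (((A ∩ B).toFinite.toFinset : Finset V) : Set V) := by
        intro a ha b hb p
        cases p with
        | nil =>
          refine ⟨a, SimpleGraph.Walk.start_mem_support _, ?_⟩
          rw [Set.Finite.coe_toFinset]
          exact ⟨ha, hb⟩
        | cons h1 p => exact absurd ⟨_, _, h1⟩ hE
      have hk := h _ hsep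
      let f : Fin k → V := fun i =>
        (((A ∩ B).toFinite.toFinset.equivFin.symm (Fin.castLE hk i) :
          (A ∩ B).toFinite.toFinset) : V)
      have hf : Function.Injective f := by
        intro i j hij
        have h1 := (A ∩ B).toFinite.toFinset.equivFin.symm.injective (Subtype.ext hij)
        exact Fin.castLE_injective hk h1
      have hfm : ∀ i, f i ∈ A ∩ B := fun i =>
        (Set.Finite.mem_toFinset _).1
          ((A ∩ B).toFinite.toFinset.equivFin.symm (Fin.castLE hk i)).2
      refine ⟨f, f, fun i => SimpleGraph.Walk.nil, fun i => (hfm i).1, fun i => (hfm i).2, ?_⟩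
      intro i j hij v hv hv'
      rw [SimpleGraph.Walk.support_nil, List.mem_singleton] at hv hv'
      exact hij (hf (hv.symm.trans hv'))

end Pool.Agent.Lib.MP_426cf1_co
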