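import Pool.Agent.Lib.MP_426cf1_co.Defs

/-!
# JOB Mod: models are preserved

`Model.mono`, `Model.mono_graph`: same branch sets; connectivity of `(G'.induce S)` passes to the larger graph `G.induce S`
(`SimpleGraph.Connected.mono`, `SimpleGraph.comap_monotone` or by hand).
`Model.contr`: let `f` be a model in `contr G x y` inside `L \ {y}`. Put `g a = f a ∪ {y}` if `x ∈ f a` and `g a = f a` otherwise. As `y ∉ f a` for all `a` and
the `f a` are disjoint, the `g a` are disjoint and contained in `L`. Every edge `u w` of `contr G x y` between vertices `≠ y` is an edge of `G`, or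
`u = x` and `y w` is an edge of `G`, or `w = x` and `y u` is an edge of `G`. Connectivity of `g a`: show that every `u ∈ f a` is joined to a fixed vertex of `f a`
inside `g a` (induction along a walk in `(contr G x y).induce (f a)`: every step `u w` of the walk is a walk of length at most two of `G` inside `g a`: `u w`, or
`x y w`, or `u y x`; note `x ∈ f a` in the last two cases so `y ∈ g a` and `x y` is an edge of `G`); `y` is adjacent to `x`. Edges between `g a` and `g b`, `H.Adj a b`: from the edge `u w` between `f a` and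
`f b` in `contr G x y`: `u w`, or `y w` with `y ∈ g a` (as `u = x`), or `u y` with `y ∈ g b`.
-/

set_option autoImplicit false

namespace Pool.Agent.Lib.MP_426cf1_co

variable {V W : Type*} {H : SimpleGraph W} {G G' : SimpleGraph V} {L L' : Set V}

theorem Model.mono (h : Model H G L) (hL : L ⊆ L') : Model H G L' := by
  obtain ⟨f, h1, h2, h3, h4⟩ := h
  exact ⟨f, fun a => (h1 a).trans hL, h2, h3, h4⟩

theorem Model.mono_graph (h : Model H G' L) (hG : G' ≤ G) : Model H G L := by
  obtain ⟨f, h1, h2, h3, h4⟩ := h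
  refine ⟨f, h1, h2, fun a => (h3 a).mono fun u v huv => hG huv, fun a b hab => ?_⟩
  obtain ⟨x, hx, y, hy, hxy⟩ := h4 a b hab
  exact ⟨x, hx, y, hy, hG hxy⟩

/-- the branch set `S` with `y` added when `x` belongs to it -/
private def modG (x y : V) (S : Set V) : Set V := {v | v ∈ S ∨ (v = y ∧ x ∈ S)}

private theorem mod_reach {x y : V} (hxy : G.Adj x y) (S : Set V) {u w : S}
    (h : ((contr G x y).induce S).Reachable u w) :
    (G.induce (modG x y S)).Reachable ⟨u, Or.inl u.2⟩ ⟨w, Or.inl w.2⟩ := by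
  obtain ⟨p⟩ := h
  induction p with
  | nil => exact SimpleGraph.Reachable.refl _
  | @cons u v w hadj p ih =>
    refine SimpleGraph.Reachable.trans ?_ ih
    have hadj' : (contr G x y).Adj u v := hadj
    obtain ⟨hne, h | ⟨hux, h⟩ | ⟨hvx, h⟩⟩ := hadj'
    · exact SimpleGraph.Adj.reachable
        (show (G.induce (modG x y S)).Adj ⟨u, Or.inl u.2⟩ ⟨v, Or.inl v.2⟩ from h)
    · have hxS : x ∈ S := hux ▸ u.2
      have h1 : (G.induce (modG x y S)).Adj ⟨u, Or.inl u.2⟩ ⟨y, Or.inr ⟨rfl, hxS⟩⟩ := by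
        show G.Adj u y
        rw [hux]; exact hxy
      have h2 : (G.induce (modG x y S)).Adj ⟨y, Or.inr ⟨rfl, hxS⟩⟩ ⟨v, Or.inl v.2⟩ := h
      exact h1.reachable.trans h2.reachable
    · have hxS : x ∈ S := hvx ▸ v.2
      have h1 : (G.induce (modG x y S)).Adj ⟨u, Or.inl u.2⟩ ⟨y, Or.inr ⟨rfl, hxS⟩⟩ := h.symm
      have h2 : (G.induce (modG x y S)).Adj ⟨y, Or.inr ⟨rfl, hxS⟩⟩ ⟨v, Or.inl v.2⟩ := by
        show G.Adj y v
        rw [hvx]; exact hxy.symm
      exact h1.reachable.trans h2.reachable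

theorem Model.contr {x y : V} (hxy : G.Adj x y) (hx : x ∈ L) (hy : y ∈ L)
    (h : Model H (contr G x y) (L \ {y})) : Model H G L := by
  obtain ⟨f, h1, h2, h3, h4⟩ := h
  have hyf : ∀ a, y ∉ f a := fun a hya => (h1 a hya).2 rfl
  refine ⟨fun a => modG x y (f a), fun a => ?_, fun a b hab => ?_, fun a => ?_, fun a b hab => ?_⟩
  · rintro v (hv | ⟨rfl, -⟩)
    · exact (h1 a hv).1
    · exact hy
  · have hd := Set.disjoint_left.1 (h2 a b hab)
    refine Set.disjoint_left.2 ?_
    rintro v (hv | ⟨rfl, hva⟩) (hw | ⟨hvy, hvb⟩)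
    · exact hd hv hw
    · subst hvy; exact hyf a hv
    · exact hyf b hw
    · exact hd hva hvb
  · obtain ⟨v0⟩ := (h3 a).nonempty
    refine (SimpleGraph.connected_iff_exists_forall_reachable _).2
      ⟨⟨v0, Or.inl v0.2⟩, ?_⟩
    rintro ⟨w, hw | ⟨rfl, hxa⟩⟩
    · exact mod_reach hxy (f a) ((h3 a).preconnected v0 ⟨w, hw⟩)
    · have h5 := mod_reach hxy (f a) ((h3 a).preconnected v0 ⟨x, hxa⟩)
      refine h5.trans (SimpleGraph.Adj.reachable ?_)
      exact hxy
  · obtain ⟨u, hu, w, hw, hne, h | ⟨hux, h⟩ | ⟨hwx, h⟩⟩ := h4 a b hab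
    · exact ⟨u, Or.inl hu, w, Or.inl hw, h⟩
    · exact ⟨y, Or.inr ⟨rfl, hux ▸ hu⟩, w, Or.inl hw, h⟩
    · exact ⟨u, Or.inl hu, y, Or.inr ⟨rfl, hwx ▸ hw⟩, h.symm⟩

end Pool.Agent.Lib.MP_426cf1_co
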