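import Pool.Agent.Lib.MP_426cf1_co.Mod
import Pool.Agent.Lib.MP_426cf1_co.Cnt

/-!
# JOB Red: reduction to good graphs

Claim: if every `Good a b G L` contains a model of `H`, then so does every `(G, L)` with `a ≤ |L|` and `2 a |L| ≤ e2 G L + 2 a b`, for `4 b ≤ a`, `1 ≤ b`.

Strong induction on `|L|` and, for fixed `|L|`, strong induction on `e2 G L` (for all `G`, `L`). Let `(G, L)` be given, `n = |L|`. We may assume that the claim holds for all smaller pairs and
that `H` has no model in `(G, L)`; we show that `(G, L)` is good, a contradiction.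
* `n ≥ 2 a - 2 b` (`big`): by `e2_le`, `e2 ≤ n² - n`, so `2 a n ≤ n² + 2 a b`; if `a ≤ n < 2 a - 2 b`, then with `n = a + i`, `i < a - 2 b`: `n (2 a - n) = (a + i) (a - i) = a² - i² > a² - (a - 2b)² = 4 a b - 4 b² ≥ 2 a b`
  (`a ≥ 4 b`), contradiction.
* `e2 G L ≤ 2 a n - 2 a b` (so `sml`): otherwise `e2 G L ≥ 2 a n - 2 a b + 1`, both sides even?? Avoid parity: `e2 G L > 0` so there is an edge `x y` in `L`; let `G' = G.deleteEdges {s(x, y)}`, `e2 G' L + 2 = e2 G L`. If
  `2 a n ≤ e2 G' L + 2 a b` the induction (inner) gives a model in `G' ≤ G`. Otherwise `e2 G L < 2 a n - 2 a b + 2 ≤ 2 a n` as `a b ≥ 1`. So `sml` in any case. (If `e2 G L = 0` then `sml` is clear.)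
* `deg`: let `v ∈ L`, `d = dg G L v`, suppose `d ≤ a`. `e2 G (L.erase v) = e2 G L - 2 d ≥ 2 a (n - 1) - 2 a b`, `n - 1 ≥ a` (as `n ≥ 2 a - 2 b > a`), so the induction gives a model in `(G, L.erase v)`.
* `com`: let `x, y ∈ L` be adjacent, suppose `cm G L x y + 1 ≤ a`. By `e2_contr`: `e2 (contr G x y) (L.erase y) ≥ e2 G L - 2 a ≥ 2 a (n - 1) - 2 a b`, the induction gives a model in
  `(contr G x y, L.erase y)` and `Model.contr` one in `(G, L)`.
* `rob`: let `|U| ≤ b`, `x, y ∈ L \ U` and suppose that no walk from `x` to `y` stays in `L \ U`. Let `A₀` be the set of the vertices of `L \ U` which can be reached from `x` by a walk in `L \ U`, `B₀` the set of the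
  other vertices of `L \ U` (so `x ∈ A₀`, `y ∈ B₀`, and there are no edges between `A₀` and `B₀`), `A = A₀ ∪ (U ∩ L)`, `B = B₀ ∪ (U ∩ L)`. `A ∪ B = L`, `|A| + |B| ≤ n + b`, `|A|, |B| < n`. All neighbours of `x` in `L` are in `A`, so
  `|A| ≥ a + 1` by `deg`, similarly `|B| ≥ a + 1`. By induction (no model in `A` or `B`, `Model.mono`) `e2 G A < 2 a |A| - 2 a b`, `e2 G B < 2 a |B| - 2 a b`, so by `e2_union`
  `e2 G L < 2 a (n + b) - 4 a b = 2 a n - 2 a b ≤ e2 G L`. Contradiction.
-/

set_option autoImplicit false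

namespace Pool.Agent.Lib.MP_426cf1_co

variable {V W : Type*} [DecidableEq V] {H : SimpleGraph W}

omit [DecidableEq V] in
/-- the numerical inequality for `big` -/
private theorem Red_big {n e a b : ℕ} (hab : 4 * b ≤ a) (h1 : e + n ≤ n * n)
    (h2 : 2 * a * n ≤ e + 2 * a * b) (h3 : a ≤ n) (hb : 1 ≤ b) : 2 * a ≤ n + 2 * b := by
  by_contra hc
  push Not at hc
  obtain ⟨i, rfl⟩ := Nat.exists_eq_add_of_le h3
  zify at *
  nlinarith [mul_nonneg (Int.natCast_nonneg i) (Int.natCast_nonneg i),
    mul_nonneg (Int.natCast_nonneg b) (by linarith : (0 : ℤ) ≤ (a : ℤ) - 4 * b),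
    mul_nonneg (by linarith : (0 : ℤ) ≤ (a : ℤ) - 2 * b - i) (by linarith [Int.natCast_nonneg i, Int.natCast_nonneg b] : (0 : ℤ) ≤ (a : ℤ) - 2 * b + i)]

/-- robustness of a minimal pair -/
private theorem Red_rob {G : SimpleGraph V} {L : Finset V} {a b : ℕ} (hab : 4 * b ≤ a)
    (hdeg : ∀ v ∈ L, a + 1 ≤ dg G L v)
    (hsmall : ∀ A ⊆ L, a ≤ A.card → A.card < L.card → e2 G A + 2 * a * b < 2 * a * A.card)
    (he : 2 * a * L.card ≤ e2 G L + 2 * a * b) : Rob b G L := by
  classical
  intro U hU x hx hxU y hy hyU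
  by_contra hc
  -- the part reachable from x
  let A₀ : Finset V := (L \ U).filter fun v => ∃ p : G.Walk x v, ∀ u ∈ p.support, u ∈ L ∧ u ∉ U
  let B₀ : Finset V := (L \ U) \ A₀
  have hxA : x ∈ A₀ := by
    refine Finset.mem_filter.2 ⟨Finset.mem_sdiff.2 ⟨hx, hxU⟩, SimpleGraph.Walk.nil, ?_⟩
    intro u hu
    rw [SimpleGraph.Walk.support_nil, List.mem_singleton] at hu
    rw [hu]
    exact ⟨hx, hxU⟩
  have hyB : y ∈ B₀ := by
    refine Finset.mem_sdiff.2 ⟨Finset.mem_sdiff.2 ⟨hy, hyU⟩, fun h => hc ?_⟩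
    exact (Finset.mem_filter.1 h).2
  have hedge : ∀ u ∈ A₀, ∀ w ∈ L, w ∉ U → G.Adj u w → w ∈ A₀ := by
    intro u hu w hw hwU huw
    obtain ⟨hu1, p, hp⟩ := Finset.mem_filter.1 hu
    refine Finset.mem_filter.2 ⟨Finset.mem_sdiff.2 ⟨hw, hwU⟩, p.concat huw, ?_⟩
    intro z hz
    rw [SimpleGraph.Walk.support_concat, List.mem_append, List.mem_singleton] at hz
    rcases hz with hz | rfl
    · exact hp z hz
    · exact ⟨hw, hwU⟩
  set A := A₀ ∪ (U ∩ L) with hA
  set B := B₀ ∪ (U ∩ L) with hB
  have hA₀L : A₀ ⊆ L \ U := Finset.filter_subset _ _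
  have hB₀L : B₀ ⊆ L \ U := Finset.sdiff_subset
  have hAL : A ⊆ L := Finset.union_subset (hA₀L.trans Finset.sdiff_subset) Finset.inter_subset_right
  have hBL : B ⊆ L := Finset.union_subset (hB₀L.trans Finset.sdiff_subset) Finset.inter_subset_right
  have hABL : A ∪ B = L := by
    refine Finset.Subset.antisymm (Finset.union_subset hAL hBL) fun v hv => ?_
    by_cases hvU : v ∈ U
    · exact Finset.mem_union_left _ (Finset.mem_union_right _ (Finset.mem_inter.2 ⟨hvU, hv⟩))
    · by_cases hvA : v ∈ A₀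
      · exact Finset.mem_union_left _ (Finset.mem_union_left _ hvA)
      · exact Finset.mem_union_right _ (Finset.mem_union_left _
          (Finset.mem_sdiff.2 ⟨Finset.mem_sdiff.2 ⟨hv, hvU⟩, hvA⟩))
  have hcard : A₀.card + B₀.card + (U ∩ L).card = L.card := by
    have h1 : A₀.card + B₀.card = (L \ U).card := by
      rw [add_comm]
      exact Finset.card_sdiff_add_card_eq_card hA₀L
    have h2 : (L \ U).card + (L ∩ U).card = L.card := Finset.card_sdiff_add_card_inter L U
    rw [Finset.inter_comm] at h2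
    omega
  have hUc : (U ∩ L).card ≤ b := (Finset.card_le_card Finset.inter_subset_left).trans hU
  have hAc : A.card = A₀.card + (U ∩ L).card := by
    refine Finset.card_union_of_disjoint ?_
    rw [Finset.disjoint_left]
    intro v hv hv'
    exact (Finset.mem_sdiff.1 (hA₀L hv)).2 (Finset.mem_inter.1 hv').1
  have hBc : B.card = B₀.card + (U ∩ L).card := by
    refine Finset.card_union_of_disjoint ?_
    rw [Finset.disjoint_left]
    intro v hv hv'
    exact (Finset.mem_sdiff.1 (hB₀L hv)).2 (Finset.mem_inter.1 hv').1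
  have hA0 : 0 < A₀.card := Finset.card_pos.2 ⟨x, hxA⟩
  have hB0 : 0 < B₀.card := Finset.card_pos.2 ⟨y, hyB⟩
  -- neighbours of x are in A, neighbours of y in B
  have hAa : a + 1 ≤ A.card := by
    refine (hdeg x hx).trans ?_
    unfold dg
    refine Finset.card_le_card fun w hw => ?_
    obtain ⟨hw1, hw2⟩ := Finset.mem_filter.1 hw
    by_cases hwU : w ∈ U
    · exact Finset.mem_union_right _ (Finset.mem_inter.2 ⟨hwU, hw1⟩)
    · exact Finset.mem_union_left _ (hedge x hxA w hw1 hwU hw2)
  have hBa : a + 1 ≤ B.card := by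
    refine (hdeg y hy).trans ?_
    unfold dg
    refine Finset.card_le_card fun w hw => ?_
    obtain ⟨hw1, hw2⟩ := Finset.mem_filter.1 hw
    by_cases hwU : w ∈ U
    · exact Finset.mem_union_right _ (Finset.mem_inter.2 ⟨hwU, hw1⟩)
    · refine Finset.mem_union_left _ (Finset.mem_sdiff.2 ⟨Finset.mem_sdiff.2 ⟨hw1, hwU⟩, fun h => ?_⟩)
      exact (Finset.mem_sdiff.1 hyB).2 (hedge w h y hy hyU hw2.symm)
  have h1 := hsmall A hAL (by omega) (by omega)
  have h2 := hsmall B hBL (by omega) (by omega)
  have h3 : e2 G L ≤ e2 G A + e2 G B := by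
    refine e2_union hABL fun u hu w hw huw => ?_
    by_cases huU : u ∈ U
    · by_cases hwU : w ∈ U
      · exact Or.inl ⟨Finset.mem_union_right _ (Finset.mem_inter.2 ⟨huU, hu⟩),
          Finset.mem_union_right _ (Finset.mem_inter.2 ⟨hwU, hw⟩)⟩
      · by_cases hwA : w ∈ A₀
        · exact Or.inl ⟨Finset.mem_union_right _ (Finset.mem_inter.2 ⟨huU, hu⟩),
            Finset.mem_union_left _ hwA⟩
        · exact Or.inr ⟨Finset.mem_union_right _ (Finset.mem_inter.2 ⟨huU, hu⟩),
            Finset.mem_union_left _ (Finset.mem_sdiff.2 ⟨Finset.mem_sdiff.2 ⟨hw, hwU⟩, hwA⟩)⟩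
    · by_cases huA : u ∈ A₀
      · refine Or.inl ⟨Finset.mem_union_left _ huA, ?_⟩
        by_cases hwU : w ∈ U
        · exact Finset.mem_union_right _ (Finset.mem_inter.2 ⟨hwU, hw⟩)
        · exact Finset.mem_union_left _ (hedge u huA w hw hwU huw)
      · refine Or.inr ⟨Finset.mem_union_left _
          (Finset.mem_sdiff.2 ⟨Finset.mem_sdiff.2 ⟨hu, huU⟩, huA⟩), ?_⟩
        by_cases hwU : w ∈ U
        · exact Finset.mem_union_right _ (Finset.mem_inter.2 ⟨hwU, hw⟩)
        · refine Finset.mem_union_left _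
            (Finset.mem_sdiff.2 ⟨Finset.mem_sdiff.2 ⟨hw, hwU⟩, fun h => huA ?_⟩)
          exact hedge w h u hu huU huw.symm
  have h4 : 2 * a * A.card + 2 * a * B.card ≤ 2 * a * (L.card + b) := by
    rw [← mul_add]
    exact Nat.mul_le_mul_left _ (by omega)
  have h5 : 2 * a * (L.card + b) = 2 * a * L.card + 2 * a * b := by ring
  omega

theorem red (a b : ℕ) (hb : 1 ≤ b) (hab : 4 * b ≤ a)
    (h : ∀ (G : SimpleGraph V) (L : Finset V), Good a b G L → Model H G (L : Set V)) :
    ∀ (G : SimpleGraph V) (L : Finset V), a ≤ L.card → 2 * a * L.card ≤ e2 G L + 2 * a * b →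
      Model H G (L : Set V) := by
  classical
  suffices key : ∀ n : ℕ, ∀ e : ℕ, ∀ (G : SimpleGraph V) (L : Finset V), L.card = n → e2 G L = e →
      a ≤ L.card → 2 * a * L.card ≤ e2 G L + 2 * a * b → Model H G (L : Set V) from
    fun G L => key _ _ G L rfl rfl
  intro n
  induction n using Nat.strong_induction_on with
  | _ n ihn =>
    intro e
    induction e using Nat.strong_induction_on with
    | _ e ihe =>
      intro G L hn he ha h2
      by_contra hno
      have hab1 : 1 ≤ a * b := Nat.mul_pos (by omega) hb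
      have hbig : 2 * a ≤ L.card + 2 * b := Red_big hab (e2_le G L) h2 ha hb
      -- deg
      have hdeg : ∀ v ∈ L, a + 1 ≤ dg G L v := by
        intro v hv
        by_contra hc
        push Not at hc
        have h3 := e2_erase (G := G) hv
        have h4 : (L.erase v).card = L.card - 1 := Finset.card_erase_of_mem hv
        have h5 : 2 * a * (L.card - 1) + 2 * a = 2 * a * L.card := by
          rw [← Nat.mul_succ]
          congr 1
          omega
        apply hno
        refine Model.mono (ihn (L.erase v).card (by omega) _ G (L.erase v) rfl rfl (by omega) ?_)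
          (Finset.coe_subset.2 (Finset.erase_subset v L))
        rw [h4]
        omega
      have hcom : ∀ x ∈ L, ∀ y ∈ L, G.Adj x y → a ≤ cm G L x y := by
        intro x hx y hy hxy
        by_contra hc
        push Not at hc
        have h3 := e2_contr (G := G) hx hy hxy
        have h4 : (L.erase y).card = L.card - 1 := Finset.card_erase_of_mem hy
        have h5 : 2 * a * (L.card - 1) + 2 * a = 2 * a * L.card := by
          rw [← Nat.mul_succ]
          congr 1
          omega
        apply hno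
        refine Model.contr hxy (Finset.mem_coe.2 hx) (Finset.mem_coe.2 hy) ?_
        rw [← Finset.coe_erase]
        refine ihn (L.erase y).card (by omega) _ (contr G x y) (L.erase y) rfl rfl (by omega) ?_
        rw [h4]
        omega
      have hsml : e2 G L ≤ 2 * a * L.card := by
        by_contra hc
        push Not at hc
        have h3 : 0 < e2 G L := by omega
        obtain ⟨x, hx, hx0⟩ : ∃ x ∈ L, dg G L x ≠ 0 := by
          by_contra hcc
          push Not at hcc
          have : e2 G L = 0 := Finset.sum_eq_zero hcc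
          omega
        obtain ⟨y, hy⟩ : ∃ y ∈ L, G.Adj x y := by
          unfold dg at hx0
          rw [Finset.card_ne_zero] at hx0
          obtain ⟨y, hy⟩ := hx0
          exact ⟨y, Finset.mem_filter.1 hy⟩
        have h4 := e2_del (G := G) hx hy.1 hy.2
        apply hno
        refine Model.mono_graph (ihe (e2 (G.deleteEdges {s(x, y)}) L) (by omega) _ L hn rfl ha ?_)
          (SimpleGraph.deleteEdges_le _)
        have h5 : 2 * a * b = 2 * (a * b) := by ring
        omega
      refine hno (h G L ⟨hbig, hdeg, hcom, ?_, hsml⟩)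
      refine Red_rob hab hdeg ?_ h2
      intro A hA h3 h4
      by_contra hc
      push Not at hc
      exact hno (Model.mono (ihn A.card (by omega) _ G A rfl rfl h3 hc) (Finset.coe_subset.2 hA))

end Pool.Agent.Lib.MP_426cf1_co
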